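import Pool.Agent.Work.MP_bf01b2_co.Lg.Stmts
import Pool.Agent.Work.MP_bf01b2_co.Stmts

/-!
# MP_bf01b2_co, `n + O(log n)` : assembly of the final statement
-/

set_option autoImplicit false

namespace Pool.Agent.Work.MP_bf01b2_co.Lg

theorem asm_card (s q B : ℕ) : (allCo s q B).card ≤ 5 * s * B + 6 * s + 4 * s * q := by
  unfold allCo
  refine (Finset.card_union_le _ _).trans ?_
  refine (Nat.add_le_add_right (Finset.card_union_le _ _) _).trans ?_
  have h1 : (Finset.image (fun p : ℕ × ℕ => Co.real p.1 p.2)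
      (Finset.range B ×ˢ Finset.range (5 * s))).card ≤ B * (5 * s) := by
    refine Finset.card_image_le.trans ?_
    rw [Finset.card_product, Finset.card_range, Finset.card_range]
  have h2 : (Finset.image (fun p : ℕ × Bool => Co.tr p.1 p.2)
      (Finset.range (3 * s) ×ˢ (Finset.univ : Finset Bool))).card ≤ 3 * s * 2 := by
    refine Finset.card_image_le.trans ?_
    rw [Finset.card_product, Finset.card_range, Finset.card_univ, Fintype.card_bool]
  have h3 : (Finset.image (fun p : ℕ × ℕ × ℕ => Co.psi p.1 p.2.1 p.2.2)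
      (Finset.range 2 ×ˢ Finset.range (2 * s) ×ˢ Finset.range q)).card ≤ 2 * (2 * s * q) := by
    refine Finset.card_image_le.trans ?_
    rw [Finset.card_product, Finset.card_product, Finset.card_range, Finset.card_range,
      Finset.card_range]
  have e : 5 * s * B + 6 * s + 4 * s * q = B * (5 * s) + 3 * s * 2 + 2 * (2 * s * q) := by ring
  rw [e]
  exact Nat.add_le_add (Nat.add_le_add h1 h2) h3

theorem asm_P_append {s q B : ℕ} (hs : 0 < s) (ω : List Bool → Opt s q) (y : List Bool)
    (e : Bool) (c : Co) : P B ω (y ++ [e]) c =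
      P B ω y c + if cd B ω (y ++ [e]) y.length = c then 1 else 0 := by
  have h : (y ++ [e]).length = y.length + 1 := by simp
  rw [P_take hs ω (y ++ [e]) y.length (by omega) c, h, Nat.Ico_succ_singleton,
    Finset.sum_singleton, List.take_left]

theorem asm_zmod : ∀ x y : ZMod 2, (decide (x = 1)) = (decide (y = 1)) → x = y := by decide

theorem asm_zmod' : ∀ x : ZMod 2, (decide (x = 1)) ≠ (decide (x + 1 = 1)) := by decide

theorem asm_hamming {s q B : ℕ} (m : ℕ) (hs : 0 < s) (hB : 0 < B) (hq : 0 < q)
    (ω : List Bool → Opt s q) (emb : {c // c ∈ allCo s q B} ↪ Fin m)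
    (y : List Bool) (e : Bool) :
    hammingDist
      (Function.extend emb (fun c => decide (P B ω y c.1 = 1)) (fun _ => false))
      (Function.extend emb (fun c => decide (P B ω (y ++ [e]) c.1 = 1)) (fun _ => false)) = 1 := by
  set c0 : Co := cd B ω (y ++ [e]) y.length with hc0
  have hmem : c0 ∈ allCo s q B := cd_mem hs hB hq _ _ _
  unfold hammingDist
  rw [Finset.card_eq_one]
  refine ⟨emb ⟨c0, hmem⟩, ?_⟩
  ext i
  simp only [Finset.mem_filter, Finset.mem_univ, true_and, Finset.mem_singleton]
  constructor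
  · intro h
    by_cases hi : ∃ c, emb c = i
    · obtain ⟨c, rfl⟩ := hi
      rw [emb.injective.extend_apply, emb.injective.extend_apply, asm_P_append hs] at h
      by_contra hne
      have hcc : c0 ≠ c.1 := by
        intro h2
        apply hne
        congr 1
        exact Subtype.ext h2.symm
      rw [← hc0, if_neg hcc, add_zero] at h
      exact h rfl
    · rw [Function.extend_apply' _ _ _ hi, Function.extend_apply' _ _ _ hi] at h
      exact absurd rfl h
  · rintro rfl
    rw [emb.injective.extend_apply, emb.injective.extend_apply, asm_P_append hs, ← hc0, if_pos rfl]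
    exact asm_zmod' _

theorem assemble (h1 : Core) (h2 : MP_bf01b2_co.TreeStr) (h3 : Params) : FinalStatement := by
  obtain ⟨C, hC⟩ := h3
  refine ⟨C, ?_⟩
  intro n hn V _ _ G _ hG hdeg hcard m hm
  obtain ⟨s, B, q, hs, hB, hq, hn1, hn2, hn3, hn4⟩ := hC n hn
  obtain ⟨f, hf, hpre, hadj⟩ := h2 V G hG hdeg
  have hB0 : 0 < B := by omega
  have hq0 : 0 < q := by omega
  obtain ⟨ω, hω⟩ := h1 s B q n hs hB hq hn1 hn2 hn3 (Finset.univ.image f)
    (by
      intro v hv k
      obtain ⟨a, -, rfl⟩ := Finset.mem_image.mp hv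
      obtain ⟨u, hu⟩ := hpre a k
      exact Finset.mem_image.mpr ⟨u, Finset.mem_univ _, hu⟩)
    (Finset.card_image_le.trans (by simpa using hcard))
  have hcm : (allCo s q B).card ≤ m := by
    have h4 : ((5 * s * B + 6 * s + 4 * s * q : ℕ) : ℝ) ≤ (m : ℝ) := hn4.trans hm
    exact (asm_card s q B).trans (by exact_mod_cast h4)
  obtain ⟨emb⟩ : Nonempty ({c // c ∈ allCo s q B} ↪ Fin m) := by
    apply Function.Embedding.nonempty_of_card_le
    rw [Fintype.card_coe, Fintype.card_fin]
    exact hcm
  set F : V → Fin m → Bool := fun v =>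
    Function.extend emb (fun c => decide (P B ω (f v) c.1 = 1)) (fun _ => false) with hF
  have hinj : Function.Injective F := by
    intro u v huv
    apply hf
    refine hω (f u) (Finset.mem_image.mpr ⟨u, Finset.mem_univ _, rfl⟩) (f v)
      (Finset.mem_image.mpr ⟨v, Finset.mem_univ _, rfl⟩) ?_
    intro c hc
    have h5 := congrFun huv (emb ⟨c, hc⟩)
    simp only [hF] at h5
    rw [emb.injective.extend_apply, emb.injective.extend_apply] at h5
    exact asm_zmod _ _ h5
  refine ⟨⟨F, ?_⟩, hinj⟩
  intro a b hab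
  rw [SimpleGraph.fromRel_adj]
  refine ⟨fun h => hab.ne (hinj h), ?_⟩
  rcases hadj a b hab with ⟨e, he⟩ | ⟨e, he⟩
  · left
    have h6 := asm_hamming m hs hB0 hq0 ω emb (f a) e
    rw [← he] at h6
    exact h6
  · right
    have h6 := asm_hamming m hs hB0 hq0 ω emb (f b) e
    rw [← he] at h6
    exact h6

end Pool.Agent.Work.MP_bf01b2_co.Lg
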