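import Pool.Agent.Work.MP_bf01b2_co.Lg.Defs

/-!
# MP_bf01b2_co, `n + O(log n)` : basic lemmas about positions
-/

set_option autoImplicit false

namespace Pool.Agent.Work.MP_bf01b2_co.Lg

variable {s q B : ℕ}

lemma tab_lt (a b c : Bool) (p : ℕ) : tab a b c p < 5 := by
  unfold tab
  cases a <;> cases b <;> cases c <;> simp <;> split_ifs <;> omega

lemma fidx_lt (x : ℕ → Bool) (i : ℕ) (hi : i < 3 * s) : fidx x i < 5 * s := by
  unfold fidx
  have := tab_lt (x (3 * (i / 3))) (x (3 * (i / 3) + 1)) (x (3 * (i / 3) + 2)) (i % 3)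
  omega

lemma fidx_congr (x x' : ℕ → Bool) (i : ℕ) (h : ∀ j ≤ i, x j = x' j) : fidx x i = fidx x' i := by
  unfold fidx
  congr 1
  have h0 := h (3 * (i / 3)) (by omega)
  rcases (show i % 3 = 0 ∨ i % 3 = 1 ∨ i % 3 = 2 by omega) with h1 | h1 | h1
  · rw [h1]; simp [tab, h0]
  · have h2 := h (3 * (i / 3) + 1) (by omega)
    rw [h1]; simp [tab, h2]
  · have h2 := h (3 * (i / 3) + 1) (by omega)
    have h3 := h (3 * (i / 3) + 2) (by omega)
    rw [h1]; simp [tab, h0, h2, h3]

lemma fidx_inj (x : ℕ → Bool) (i i' : ℕ) (h : fidx x i = fidx x i') : i = i' := by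
  unfold fidx at h
  have h1 := tab_lt (x (3 * (i / 3))) (x (3 * (i / 3) + 1)) (x (3 * (i / 3) + 2)) (i % 3)
  have h2 := tab_lt (x (3 * (i' / 3))) (x (3 * (i' / 3) + 1)) (x (3 * (i' / 3) + 2)) (i' % 3)
  have h3 : i / 3 = i' / 3 := by omega
  rw [h3] at h
  have h4 : tab (x (3 * (i' / 3))) (x (3 * (i' / 3) + 1)) (x (3 * (i' / 3) + 2)) (i % 3) =
      tab (x (3 * (i' / 3))) (x (3 * (i' / 3) + 1)) (x (3 * (i' / 3) + 2)) (i' % 3) := by omega
  have key : ∀ (a b c : Bool) (p p' : Fin 3), tab a b c p = tab a b c p' → p = p' := by decide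
  have h5 := key _ _ _ ⟨i % 3, Nat.mod_lt _ (by norm_num)⟩ ⟨i' % 3, Nat.mod_lt _ (by norm_num)⟩ h4
  have h6 : i % 3 = i' % 3 := congrArg Fin.val h5
  omega

lemma pv_lt {N : ℕ} (π : Equiv.Perm (Fin N)) (i : ℕ) (h : i < N) : pv π i < N := by
  unfold pv; rw [dif_pos h]; exact (π ⟨i, h⟩).2

lemma pv_inj {N : ℕ} (π : Equiv.Perm (Fin N)) (i i' : ℕ) (h : i < N) (h' : i' < N)
    (he : pv π i = pv π i') : i = i' := by
  unfold pv at he
  rw [dif_pos h, dif_pos h'] at he
  have := π.injective (Fin.ext he)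
  exact congrArg Fin.val this

lemma pval_congr (o : Opt s q) (x x' : ℕ → Bool) (l : ℕ) (hl : l < 2 * s)
    (h : ∀ j ≤ 3 * s + l, x j = x' j) : pval o x l = pval o x' l := by
  unfold pval dig
  rw [h (2 * l) (by omega), h (2 * l + 1) (by omega), h (3 * s + l) le_rfl]

lemma pval_lt (hq : 0 < q) (o : Opt s q) (x : ℕ → Bool) (l : ℕ) : pval o x l < q :=
  Nat.mod_lt _ hq

lemma co_congr (k i : ℕ) (hi : i < 5 * s) (o : Opt s q) (x x' : ℕ → Bool)
    (h : ∀ j ≤ i, x j = x' j) : co B k i o x = co B k i o x' := by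
  unfold co
  split_ifs with h1 h2
  · rw [fidx_congr x x' i h]
  · rw [h i le_rfl]
  · rw [pval_congr o x x' (i - 3 * s) (by omega) (fun j hj => h j (by omega))]

lemma getD_take (v : List Bool) (m t : ℕ) (h : t < m) :
    (v.take m).getD t false = v.getD t false := by
  simp [List.getD_eq_getElem?_getD, List.getElem?_take, h]

lemma bits_take (k : ℕ) (v : List Bool) (m i : ℕ) (h : k * (5 * s) + i < m) :
    bits s k (v.take m) i = bits s k v i := getD_take v m _ h

lemma cd_take (hs : 0 < s) (ω : List Bool → Opt s q) (v : List Bool) (m t : ℕ)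
    (h : t < m) : cd B ω (v.take m) t = cd B ω v t := by
  unfold cd
  have h0 := Nat.div_mul_le_self t (5 * s)
  have h1 := Nat.div_add_mod' t (5 * s)
  have h2 : t % (5 * s) < 5 * s := Nat.mod_lt _ (by omega)
  rw [List.take_take, min_eq_left (by omega : t / (5 * s) * (5 * s) ≤ m)]
  apply co_congr _ _ h2
  intro j hj
  exact bits_take _ v m j (by omega)

lemma cd_congr (ω ω' : List Bool → Opt s q) (v : List Bool) (t : ℕ)
    (h : ω (v.take (t / (5 * s) * (5 * s))) = ω' (v.take (t / (5 * s) * (5 * s)))) :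
    cd B ω v t = cd B ω' v t := by
  unfold cd; rw [h]

lemma P_congr (ω ω' : List Bool → Opt s q) (v : List Bool)
    (h : ∀ t, t * (5 * s) < v.length → ω (v.take (t * (5 * s))) = ω' (v.take (t * (5 * s))))
    (c : Co) : P B ω v c = P B ω' v c := by
  unfold P
  apply Finset.sum_congr rfl
  intro t ht
  rw [Finset.mem_range] at ht
  rw [cd_congr ω ω' v t (h _ (lt_of_le_of_lt (Nat.div_mul_le_self t (5 * s)) ht))]

lemma P_take (hs : 0 < s) (ω : List Bool → Opt s q) (v : List Bool) (m : ℕ)
    (hm : m ≤ v.length) (c : Co) :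
    P B ω v c = P B ω (v.take m) c +
      ∑ t ∈ Finset.Ico m v.length, if cd B ω v t = c then 1 else 0 := by
  unfold P
  rw [List.length_take, min_eq_left hm, ← Finset.sum_range_add_sum_Ico _ hm]
  congr 1
  apply Finset.sum_congr rfl
  intro t ht
  rw [Finset.mem_range] at ht
  rw [cd_take hs ω v m t ht]

lemma div_mul_add_mod (hs : 0 < s) (k i : ℕ) (hi : i < 5 * s) :
    (k * (5 * s) + i) / (5 * s) = k ∧ (k * (5 * s) + i) % (5 * s) = i := by
  constructor
  · rw [add_comm, Nat.add_mul_div_right _ _ (by omega), Nat.div_eq_of_lt hi, zero_add]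
  · rw [add_comm, Nat.add_mul_mod_self_right, Nat.mod_eq_of_lt hi]

/-- The position inside a slab. -/
lemma P_slab (hs : 0 < s) (ω : List Bool → Opt s q) (v : List Bool) (k : ℕ)
    (h1 : k * (5 * s) ≤ v.length) (h2 : v.length ≤ (k + 1) * (5 * s)) (c : Co) :
    P B ω v c = P B ω (v.take (k * (5 * s))) c +
      ∑ i ∈ Finset.range (v.length - k * (5 * s)),
        if co B k i (ω (v.take (k * (5 * s)))) (bits s k v) = c then 1 else 0 := by
  rw [P_take hs ω v _ h1 c]
  congr 1
  rw [Finset.sum_Ico_eq_sum_range]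
  apply Finset.sum_congr rfl
  intro i hi
  rw [Finset.mem_range] at hi
  have hi' : i < 5 * s := by
    rw [add_mul, one_mul] at h2
    omega
  have hdm := div_mul_add_mod hs k i hi'
  unfold cd
  rw [hdm.1, hdm.2]

/-- Real coordinates (before the level `m` of the slab) flipped in the window. -/
def wset (o : Opt s q) (x : ℕ → Bool) (m : ℕ) : Finset ℕ :=
  (Finset.range (min m o.1.1.card)).image fun i => pv o.2.1 (fidx x i)

lemma P_out (hs : 0 < s) (ω : List Bool → Opt s q) (v : List Bool) (k : ℕ) (c : Co)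
    (h1 : k * (5 * s) ≤ v.length) (h2 : v.length ≤ (k + 1) * (5 * s)) (hc : XX B k c) :
    P B ω v c = P B ω (v.take (k * (5 * s))) c := by
  rw [P_slab hs ω v k h1 h2 c, Finset.sum_eq_zero, add_zero]
  intro i _
  rw [if_neg]
  intro h
  rw [← h] at hc
  unfold co at hc
  split_ifs at hc with h3 h4
  · exact hc rfl
  · exact hc
  · exact hc rfl

/-- PSI blocks that are not reached yet. -/
lemma P_psi_lt (hs : 0 < s) (ω : List Bool → Opt s q) (v : List Bool) (k g l a : ℕ)
    (h1 : k * (5 * s) ≤ v.length) (h2 : v.length ≤ (k + 1) * (5 * s))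
    (h3 : v.length ≤ k * (5 * s) + (3 * s + l)) :
    P B ω v (Co.psi g l a) = P B ω (v.take (k * (5 * s))) (Co.psi g l a) := by
  rw [P_slab hs ω v k h1 h2, Finset.sum_eq_zero, add_zero]
  intro i hi
  rw [Finset.mem_range] at hi
  rw [if_neg]
  intro h
  unfold co at h
  split_ifs at h with h3 h4
  · rw [Co.psi.injEq] at h
    omega

/-- PSI blocks that are reached. -/
lemma P_psi (hs : 0 < s) (ω : List Bool → Opt s q) (v : List Bool) (k l a : ℕ)
    (h1 : k * (5 * s) ≤ v.length) (h2 : v.length ≤ (k + 1) * (5 * s)) (hl : l < 2 * s)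
    (h3 : k * (5 * s) + (3 * s + l) < v.length) :
    P B ω v (Co.psi (k % 2) l a) = P B ω (v.take (k * (5 * s))) (Co.psi (k % 2) l a) +
      if pval (ω (v.take (k * (5 * s)))) (bits s k v) l = a then 1 else 0 := by
  rw [P_slab hs ω v k h1 h2]
  congr 1
  rw [Finset.sum_eq_single (3 * s + l)]
  · have : ¬ (3 * s + l < 3 * s) := by omega
    unfold co
    rw [if_neg this, Nat.add_sub_cancel_left]
    congr 1
    rw [Co.psi.injEq]
    simp
  · intro i _ hne
    rw [if_neg]
    intro h
    unfold co at h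
    split_ifs at h with h3 h4
    · rw [Co.psi.injEq] at h
      omega
  · intro hn
    exfalso
    apply hn
    rw [Finset.mem_range]
    omega

/-- The window of the slab. -/
lemma P_real (hs : 0 < s) (ω : List Bool → Opt s q) (v : List Bool) (k j : ℕ)
    (h1 : k * (5 * s) ≤ v.length) (h2 : v.length ≤ (k + 1) * (5 * s)) :
    P B ω v (Co.real (k % B) j) = P B ω (v.take (k * (5 * s))) (Co.real (k % B) j) +
      if j ∈ wset (ω (v.take (k * (5 * s)))) (bits s k v) (v.length - k * (5 * s))
      then 1 else 0 := by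
  rw [P_slab hs ω v k h1 h2]
  congr 1
  set o := ω (v.take (k * (5 * s))) with ho
  set x := bits s k v with hx
  set m := v.length - k * (5 * s) with hm
  have hJ : o.1.1.card ≤ 3 * s := o.1.2
  by_cases hj : j ∈ wset o x m
  · rw [if_pos hj]
    unfold wset at hj
    rw [Finset.mem_image] at hj
    obtain ⟨i, hi, hij⟩ := hj
    rw [Finset.mem_range, lt_min_iff] at hi
    rw [Finset.sum_eq_single i]
    · unfold co
      rw [if_pos (by omega : i < 3 * s), if_pos hi.2, if_pos]
      rw [hij]
    · intro i' _ hne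
      rw [if_neg]
      intro h
      unfold co at h
      split_ifs at h with h3 h4
      · rw [Co.real.injEq, ← hij] at h
        apply hne
        exact fidx_inj x i' i (pv_inj _ _ _ (fidx_lt x i' h3) (fidx_lt x i (by omega)) h.2)
    · intro hn
      exact absurd (Finset.mem_range.2 hi.1) hn
  · rw [if_neg hj]
    apply Finset.sum_eq_zero
    intro i hi
    rw [Finset.mem_range] at hi
    rw [if_neg]
    intro h
    unfold co at h
    split_ifs at h with h3 h4
    · rw [Co.real.injEq] at h
      apply hj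
      unfold wset
      rw [Finset.mem_image]
      exact ⟨i, Finset.mem_range.2 (lt_min hi h4), h.2⟩

/-- The trash. -/
lemma P_tr (hs : 0 < s) (ω : List Bool → Opt s q) (v : List Bool) (k i : ℕ) (e : Bool)
    (h1 : k * (5 * s) ≤ v.length) (h2 : v.length ≤ (k + 1) * (5 * s)) :
    P B ω v (Co.tr i e) = P B ω (v.take (k * (5 * s))) (Co.tr i e) +
      if (i < v.length - k * (5 * s) ∧ i < 3 * s ∧ (ω (v.take (k * (5 * s)))).1.1.card ≤ i ∧
        bits s k v i = e) then 1 else 0 := by
  rw [P_slab hs ω v k h1 h2]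
  congr 1
  by_cases hj : i < v.length - k * (5 * s) ∧ i < 3 * s ∧
      (ω (v.take (k * (5 * s)))).1.1.card ≤ i ∧ bits s k v i = e
  · rw [if_pos hj]
    rw [Finset.sum_eq_single i]
    · have h5 := hj.2.1
      have h6 : ¬ i < (ω (v.take (k * (5 * s)))).1.1.card := not_lt.2 hj.2.2.1
      unfold co
      rw [if_pos h5, if_neg h6, if_pos]
      rw [hj.2.2.2]
    · intro i' _ hne
      rw [if_neg]
      intro h
      unfold co at h
      split_ifs at h with h3 h4
      · rw [Co.tr.injEq] at h
        exact hne h.1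
    · intro hn
      exact absurd (Finset.mem_range.2 hj.1) hn
  · rw [if_neg hj]
    apply Finset.sum_eq_zero
    intro i' hi
    rw [Finset.mem_range] at hi
    rw [if_neg]
    intro h
    unfold co at h
    split_ifs at h with h3 h4
    · rw [Co.tr.injEq] at h
      apply hj
      obtain ⟨rfl, rfl⟩ := h
      exact ⟨hi, h3, not_lt.1 h4, rfl⟩

/-- A window keeps its content until it is used again. -/
lemma P_window (hs : 0 < s) (hB : 0 < B) (ω : List Bool → Opt s q) (v : List Bool) (κ t j : ℕ)
    (hv : v.length = κ * (5 * s)) (h1 : t < κ) (h2 : κ ≤ t + B) :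
    P B ω v (Co.real (t % B) j) = P B ω (v.take ((t + 1) * (5 * s))) (Co.real (t % B) j) := by
  have key : ∀ m, t + 1 + m ≤ κ →
      P B ω (v.take ((t + 1 + m) * (5 * s))) (Co.real (t % B) j) =
        P B ω (v.take ((t + 1) * (5 * s))) (Co.real (t % B) j) := by
    intro m
    induction m with
    | zero => intro _; rfl
    | succ m ih =>
      intro hm
      rw [← ih (by omega)]
      have hle1 : (t + 1 + m) * (5 * s) ≤ (t + 1 + (m + 1)) * (5 * s) :=
        Nat.mul_le_mul_right _ (by omega)
      have hle2 : (t + 1 + (m + 1)) * (5 * s) ≤ κ * (5 * s) := Nat.mul_le_mul_right _ hm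
      have hlen : (v.take ((t + 1 + (m + 1)) * (5 * s))).length = (t + 1 + (m + 1)) * (5 * s) := by
        rw [List.length_take, hv, min_eq_left hle2]
      rw [P_out hs ω _ (t + 1 + m) (Co.real (t % B) j) (by rw [hlen]; exact hle1)
        (by rw [hlen]; exact le_of_eq (by ring)), List.take_take, min_eq_left hle1]
      show t % B ≠ (t + 1 + m) % B
      intro h
      have h3 : (t + 1 + m - t) % B = 0 :=
        (Nat.modEq_iff_dvd' (by omega)).1 h |> Nat.mod_eq_zero_of_dvd
      rw [Nat.mod_eq_of_lt (by omega)] at h3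
      omega
  have h3 := key (κ - (t + 1)) (by omega)
  have h4 : t + 1 + (κ - (t + 1)) = κ := by omega
  rw [h4, List.take_of_length_le hv.le] at h3
  exact h3

lemma co_mem (hs : 0 < s) (hB : 0 < B) (hq : 0 < q) (k i : ℕ) (hi : i < 5 * s) (o : Opt s q)
    (x : ℕ → Bool) : co B k i o x ∈ allCo s q B := by
  have h1 : k % B < B := Nat.mod_lt _ hB
  have h2 : k % 2 < 2 := Nat.mod_lt _ (by norm_num)
  unfold co allCo
  split_ifs with ha hb
  · simp only [Finset.mem_union, Finset.mem_image, Finset.mem_product, Finset.mem_range]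
    exact Or.inl (Or.inl ⟨(k % B, pv o.2.1 (fidx x i)), ⟨h1, pv_lt _ _ (fidx_lt x i ha)⟩, rfl⟩)
  · simp only [Finset.mem_union, Finset.mem_image, Finset.mem_product, Finset.mem_range,
      Finset.mem_univ, and_true]
    exact Or.inl (Or.inr ⟨(i, x i), ha, rfl⟩)
  · simp only [Finset.mem_union, Finset.mem_image, Finset.mem_product, Finset.mem_range]
    have h3 : i - 3 * s < 2 * s := by omega
    exact Or.inr ⟨(k % 2, i - 3 * s, pval o x (i - 3 * s)),
      ⟨h2, h3, pval_lt hq _ _ _⟩, rfl⟩

lemma cd_mem (hs : 0 < s) (hB : 0 < B) (hq : 0 < q) (ω : List Bool → Opt s q) (v : List Bool)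
    (t : ℕ) : cd B ω v t ∈ allCo s q B :=
  co_mem hs hB hq _ _ (Nat.mod_lt _ (by omega)) _ _

/-- Coordinates outside `allCo` are never flipped. -/
lemma P_notMem (hs : 0 < s) (hB : 0 < B) (hq : 0 < q) (ω : List Bool → Opt s q) (v : List Bool)
    (c : Co) (hc : c ∉ allCo s q B) : P B ω v c = 0 := by
  unfold P
  apply Finset.sum_eq_zero
  intro t _
  rw [if_neg]
  rintro rfl
  exact hc (cd_mem hs hB hq ω v t)

/-! ### processed and placed -/

lemma length_of_placed (hs : 0 < s) (D : Finset (List Bool)) (w : List Bool) (k : ℕ)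
    (hk : w.length = k * (5 * s)) (hD : ∀ w' ∈ D, w'.length ≤ k * (5 * s)) (v : List Bool)
    (hv : Placed s (insert w D) v) : v.length ≤ (k + 1) * (5 * s) := by
  by_contra hn
  push Not at hn
  have h1 := hv (k + 1) hn
  have h2 : (v.take ((k + 1) * (5 * s))).length = (k + 1) * (5 * s) := by
    rw [List.length_take]; omega
  have h3 : k * (5 * s) < (k + 1) * (5 * s) := by rw [add_mul, one_mul]; omega
  rcases Finset.mem_insert.1 h1 with h | h
  · rw [h, hk] at h2; omega
  · have := hD _ h
    omega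

lemma placed_cases (hs : 0 < s) (D : Finset (List Bool)) (w : List Bool) (k : ℕ)
    (hk : w.length = k * (5 * s)) (hD : ∀ w' ∈ D, w'.length ≤ k * (5 * s)) (v : List Bool)
    (hv : Placed s (insert w D) v) :
    Placed s D v ∨ (k * (5 * s) < v.length ∧ v.length ≤ (k + 1) * (5 * s) ∧
      v.take (k * (5 * s)) = w) := by
  by_cases h : Placed s D v
  · exact Or.inl h
  · right
    unfold Placed at h
    push Not at h
    obtain ⟨t, ht, htD⟩ := h
    have h1 : v.take (t * (5 * s)) = w := by
      rcases Finset.mem_insert.1 (hv t ht) with h | h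
      · exact h
      · exact absurd h htD
    have h2 : t * (5 * s) = k * (5 * s) := by
      rw [← hk, ← h1, List.length_take]; omega
    have h3 : t = k := Nat.eq_of_mul_eq_mul_right (by omega) h2
    subst h3
    exact ⟨ht, length_of_placed hs D w t hk hD v hv, h1⟩

lemma placed_mono (D D' : Finset (List Bool)) (h : D ⊆ D') (v : List Bool) (hv : Placed s D v) :
    Placed s D' v := fun t ht => h (hv t ht)

lemma placed_take (hs : 0 < s) (D : Finset (List Bool)) (v : List Bool) (m : ℕ)
    (hv : Placed s D v) : Placed s D (v.take m) := by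
  intro t ht
  rw [List.length_take, lt_min_iff] at ht
  rw [List.take_take, min_eq_left ht.1.le]
  exact hv t ht.2

lemma P_update_old (D : Finset (List Bool)) (ω : List Bool → Opt s q)
    (w : List Bool) (hw : w ∉ D) (o : Opt s q) (v : List Bool) (hv : Placed s D v)
    (c : Co) : P B (Function.update ω w o) v c = P B ω v c := by
  apply P_congr
  intro t ht
  rw [Function.update_of_ne]
  intro h
  exact hw (h ▸ hv t ht)

lemma P_update_self (ω : List Bool → Opt s q) (w : List Bool) (o : Opt s q)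
    (c : Co) : P B (Function.update ω w o) w c = P B ω w c := by
  apply P_congr
  intro t ht
  rw [Function.update_of_ne]
  intro h
  have := congrArg List.length h
  rw [List.length_take] at this
  omega

lemma mod_succ_ne (hB : 2 ≤ B) (k : ℕ) : k % B ≠ (k + 1) % B := by
  intro h
  have : (k + 1 - k) % B = 0 := (Nat.modEq_iff_dvd' (Nat.le_succ k)).1 h |> Nat.mod_eq_zero_of_dvd
  have h1 : k + 1 - k = 1 := by omega
  rw [h1, Nat.mod_eq_of_lt (by omega)] at this
  omega

end Pool.Agent.Work.MP_bf01b2_co.Lg
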