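import Pool.Agent.Work.MP_bf01b2_co.Lg.VC

/-!
# MP_bf01b2_co, item CC: few options are in conflict
-/

set_option autoImplicit false

namespace Pool.Agent.Work.MP_bf01b2_co.Lg

/-- Item CC. -/
theorem confCount (h1 : HitCount) (h2 : OldCount) : ConfCount := by
  classical
  intro s q B M hs hB hq T D ω w k hT hL S hS
  set F : Finset (List Bool) := T.filter (fun v => Placed s D v ∧ Fib B ω k w v) with hF
  have hFc : F.card ≤ 2 ^ (20 * s) * (B * M) :=
    h2 s q B M hs hB (by omega) T D ω w k hT hL F (Finset.filter_subset _ _)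
      (fun v hv => (Finset.mem_filter.1 hv).2)
  set N : Finset (List Bool) := T.filter (fun u => k * (5 * s) ≤ u.length ∧
    u.length ≤ (k + 1) * (5 * s) ∧ u.take (k * (5 * s)) = w) with hN
  have hNc : N.card ≤ 2 ^ (5 * s + 1) := by
    have h3 : N.card ≤ (shortL (5 * s + 1)).card := by
      apply Finset.card_le_card_of_injOn (fun u => u.drop (k * (5 * s)))
      · intro u hu
        obtain ⟨_, hu1, hu2, _⟩ := Finset.mem_filter.1 hu
        rw [Finset.mem_coe]
        apply mem_shortL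
        dsimp only
        rw [List.length_drop]
        rw [add_mul, one_mul] at hu2
        omega
      · intro u hu u' hu' h
        obtain ⟨_, _, _, hu3⟩ := Finset.mem_filter.1 hu
        obtain ⟨_, _, _, hu3'⟩ := Finset.mem_filter.1 hu'
        dsimp only at h
        rw [← List.take_append_drop (k * (5 * s)) u, ← List.take_append_drop (k * (5 * s)) u',
          hu3, hu3', h]
    have := shortL_card (5 * s + 1)
    omega
  let A : List Bool × List Bool × ℕ → Finset (Opt s q) := fun p =>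
    S.filter (fun o => Hit B ω k w p.1 p.2.1 p.2.2 o)
  have hcov : S ⊆ (F ×ˢ N ×ˢ ({0, s} : Finset ℕ)).biUnion A := by
    intro o ho
    obtain ⟨v, hvT, hv1, hv2, u, huT, hu1, hu2, hu3, hu4⟩ := hS o ho
    rw [Finset.mem_biUnion]
    have hvF : v ∈ F := Finset.mem_filter.2 ⟨hvT, hv1, hv2⟩
    have huN : u ∈ N := Finset.mem_filter.2 ⟨huT, hu1, hu2, hu3⟩
    rcases hu4 with h | h
    · exact ⟨(v, u, 0), Finset.mem_product.2 ⟨hvF, Finset.mem_product.2 ⟨huN, by simp⟩⟩,
        Finset.mem_filter.2 ⟨ho, h⟩⟩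
    · exact ⟨(v, u, s), Finset.mem_product.2 ⟨hvF, Finset.mem_product.2 ⟨huN, by simp⟩⟩,
        Finset.mem_filter.2 ⟨ho, h⟩⟩
  have hA : ∀ p ∈ F ×ˢ N ×ˢ ({0, s} : Finset ℕ), (A p).card * q ^ s ≤
      Fintype.card (Opt s q) := by
    intro p hp
    obtain ⟨_, hp2⟩ := Finset.mem_product.1 hp
    obtain ⟨_, hp3⟩ := Finset.mem_product.1 hp2
    refine h1 s q B hs hq ω k w p.1 p.2.1 p.2.2 ?_ (A p) (fun o ho => (Finset.mem_filter.1 ho).2)
    rcases Finset.mem_insert.1 hp3 with h | h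
    · omega
    · rw [Finset.mem_singleton] at h
      omega
  have hsum : S.card * q ^ s ≤ (F ×ˢ N ×ˢ ({0, s} : Finset ℕ)).card *
      Fintype.card (Opt s q) := by
    calc S.card * q ^ s ≤ (∑ p ∈ F ×ˢ N ×ˢ ({0, s} : Finset ℕ), (A p).card) * q ^ s :=
          Nat.mul_le_mul_right _ ((Finset.card_le_card hcov).trans Finset.card_biUnion_le)
      _ = ∑ p ∈ F ×ˢ N ×ˢ ({0, s} : Finset ℕ), (A p).card * q ^ s := Finset.sum_mul _ _ _
      _ ≤ ∑ _p ∈ F ×ˢ N ×ˢ ({0, s} : Finset ℕ), Fintype.card (Opt s q) := Finset.sum_le_sum hA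
      _ = _ := by rw [Finset.sum_const, smul_eq_mul]
  refine hsum.trans (Nat.mul_le_mul_right _ ?_)
  rw [Finset.card_product, Finset.card_product]
  have h4 : ({0, s} : Finset ℕ).card ≤ 2 := Finset.card_le_two
  calc F.card * (N.card * ({0, s} : Finset ℕ).card)
      ≤ (2 ^ (20 * s) * (B * M)) * (2 ^ (5 * s + 1) * 2) :=
        Nat.mul_le_mul hFc (Nat.mul_le_mul hNc h4)
    _ = 2 ^ (25 * s + 2) * (B * M) := by
        rw [show 25 * s + 2 = 20 * s + (5 * s + 1) + 1 by ring, pow_add, pow_add]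
        ring

end Pool.Agent.Work.MP_bf01b2_co.Lg
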