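import Mathlib

/-!
# MP_bf01b2_co : binary trees in hypercubes, `n + O(log n)`

Definitions.  Parameters: `s` (a slab has `5 * s` levels), `B` (number of windows), `q` (size of
a PSI block).  A vertex of the tree is a bit string `v : List Bool`; a boundary vertex is a vertex
whose length is divisible by `5 * s`.
-/

set_option autoImplicit false

namespace Pool.Agent.Work.MP_bf01b2_co.Lg

/-- Coordinates. -/
inductive Co where
  | real (b j : ℕ) : Co
  | tr (j : ℕ) (e : Bool) : Co
  | psi (g l a : ℕ) : Co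
deriving DecidableEq

/-- Options of a boundary vertex: only the size of the set `A` matters, the set itself gives the
right weight to this size. -/
abbrev Opt (s q : ℕ) : Type :=
  {A : Finset (Fin (5 * s)) // A.card ≤ 3 * s} × Equiv.Perm (Fin (5 * s)) ×
    (Fin (2 * s) → Fin q)

/-- The embedding of three levels in five coordinates. -/
def tab (a b c : Bool) (p : ℕ) : ℕ :=
  if p = 0 then (if a then 1 else 0)
  else if p = 1 then (if b then 3 else 2)
  else if c then (if a then (if b then 0 else 3) else (if b then 2 else 1)) else 4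

/-- Index (before the permutation) of the real coordinate flipped at depth `i`, for the bits
`x`. -/
def fidx (x : ℕ → Bool) (i : ℕ) : ℕ :=
  5 * (i / 3) + tab (x (3 * (i / 3))) (x (3 * (i / 3) + 1)) (x (3 * (i / 3) + 2)) (i % 3)

/-- Value of a permutation. -/
def pv {N : ℕ} (π : Equiv.Perm (Fin N)) (i : ℕ) : ℕ := if h : i < N then (π ⟨i, h⟩ : ℕ) else i

/-- Value of a vector. -/
def rv {N q : ℕ} (r : Fin N → Fin q) (l : ℕ) : ℕ := if h : l < N then (r ⟨l, h⟩ : ℕ) else 0

/-- Two bits as a digit. -/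
def dig (x : ℕ → Bool) (l : ℕ) : ℕ := 2 * (x (2 * l)).toNat + (x (2 * l + 1)).toNat

/-- Value used in the PSI block `l`. -/
def pval {s q : ℕ} (o : Opt s q) (x : ℕ → Bool) (l : ℕ) : ℕ :=
  (rv o.2.2 l + (4 * dig x l + (x (3 * s + l)).toNat)) % q

/-- The coordinate flipped in the slab `k` at depth `i`, for the option `o` and the bits `x` of
the slab. -/
def co {s q : ℕ} (B k i : ℕ) (o : Opt s q) (x : ℕ → Bool) : Co :=
  if i < 3 * s then
    (if i < o.1.1.card then Co.real (k % B) (pv o.2.1 (fidx x i)) else Co.tr i (x i))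
  else Co.psi (k % 2) (i - 3 * s) (pval o x (i - 3 * s))

/-- The bits of `v` in the slab `k`. -/
def bits (s k : ℕ) (v : List Bool) (i : ℕ) : Bool := v.getD (k * (5 * s) + i) false

/-- The coordinate flipped by `v` at time `t`. -/
def cd {s q : ℕ} (B : ℕ) (ω : List Bool → Opt s q) (v : List Bool) (t : ℕ) : Co :=
  co B (t / (5 * s)) (t % (5 * s)) (ω (v.take (t / (5 * s) * (5 * s)))) (bits s (t / (5 * s)) v)

/-- Position of the vertex `v` in the cube. -/
def P {s q : ℕ} (B : ℕ) (ω : List Bool → Opt s q) (v : List Bool) (c : Co) : ZMod 2 :=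
  ∑ t ∈ Finset.range v.length, if cd B ω v t = c then 1 else 0

/-- All coordinates. -/
def allCo (s q B : ℕ) : Finset Co :=
  ((Finset.range B ×ˢ Finset.range (5 * s)).image fun p => Co.real p.1 p.2) ∪
    ((Finset.range (3 * s) ×ˢ (Finset.univ : Finset Bool)).image fun p => Co.tr p.1 p.2) ∪
      ((Finset.range 2 ×ˢ Finset.range (2 * s) ×ˢ Finset.range q).image
        fun p => Co.psi p.1 p.2.1 p.2.2)

/-- `T` is closed under taking prefixes. -/
def PrefClosed (T : Finset (List Bool)) : Prop := ∀ v ∈ T, ∀ t : ℕ, v.take t ∈ T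

/-- Boundary vertices of `T`. -/
def Bd (s : ℕ) (T : Finset (List Bool)) : Finset (List Bool) :=
  T.filter fun v => v.length % (5 * s) = 0

/-- `v` is placed if all its proper boundary prefixes are processed. -/
def Placed (s : ℕ) (D : Finset (List Bool)) (v : List Bool) : Prop :=
  ∀ t : ℕ, t * (5 * s) < v.length → v.take (t * (5 * s)) ∈ D

/-- Coordinates not touched by the slab `k` (without trash). -/
def XX (B k : ℕ) : Co → Prop
  | Co.real b _ => b ≠ k % B
  | Co.tr _ _ => False
  | Co.psi g _ _ => g ≠ k % 2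

/-- Coordinates protecting the vertices at the end of the slab `k` against the pieces of the
slab `k` that are processed later. -/
def ZZ (s B k : ℕ) : Co → Prop
  | Co.real b _ => b ≠ k % B ∧ b ≠ (k + 1) % B
  | Co.tr _ _ => False
  | Co.psi g l _ => g = k % 2 ∧ s ≤ l

/-- First invariant. -/
def Inv1 {s q : ℕ} (B : ℕ) (T D : Finset (List Bool)) (ω : List Bool → Opt s q) : Prop :=
  ∀ k : ℕ, ∀ u ∈ T, u.length = k * (5 * s) → Placed s D u →
    ∀ v ∈ T, v.length ≤ k * (5 * s) → Placed s D v → v ≠ u → ∃ c, XX B k c ∧ P B ω u c ≠ P B ω v c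

/-- Second invariant. -/
def Inv2 {s q : ℕ} (B : ℕ) (T D : Finset (List Bool)) (ω : List Bool → Opt s q) : Prop :=
  ∀ k : ℕ, ∀ u ∈ T, u.length = (k + 1) * (5 * s) → Placed s D u →
    ∀ v ∈ T, v.length = k * (5 * s) → Placed s D v → v ∉ D →
      ∃ c, ZZ s B k c ∧ P B ω u c ≠ P B ω v c

/-- `v` agrees with `w` in the real windows other than those of `k` and `k + 1`. -/
def Fib {s q : ℕ} (B : ℕ) (ω : List Bool → Opt s q) (k : ℕ) (w v : List Bool) : Prop :=
  ∀ b j : ℕ, b ≠ k % B → b ≠ (k + 1) % B → P B ω v (Co.real b j) = P B ω w (Co.real b j)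

/-- The option `o` of `w` brings the descendant `u` in conflict with the old vertex `v`, in the
PSI blocks `l0 ≤ l < l0 + s`. -/
def Hit {s q : ℕ} (B : ℕ) (ω : List Bool → Opt s q) (k : ℕ) (w v u : List Bool) (l0 : ℕ)
    (o : Opt s q) : Prop :=
  ∀ l, l0 ≤ l → l < l0 + s → ∀ a < q, P B ω v (Co.psi (k % 2) l a) =
    P B ω w (Co.psi (k % 2) l a) + if pval o (bits s k u) l = a then 1 else 0

/-- Conflict of the option `o` at `w`. -/
def Conf {s q : ℕ} (B : ℕ) (T D : Finset (List Bool)) (ω : List Bool → Opt s q) (k : ℕ)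
    (w : List Bool) (o : Opt s q) : Prop :=
  ∃ v ∈ T, Placed s D v ∧ Fib B ω k w v ∧ ∃ u ∈ T, k * (5 * s) ≤ u.length ∧
    u.length ≤ (k + 1) * (5 * s) ∧ u.take (k * (5 * s)) = w ∧
      (Hit B ω k w v u 0 o ∨ Hit B ω k w v u s o)

/-- At most `M` placed boundary vertices have given real coordinates. -/
def Load {s q : ℕ} (B M : ℕ) (T D : Finset (List Bool)) (ω : List Bool → Opt s q) : Prop :=
  ∀ F ⊆ Bd s T, ∀ x : ℕ → ℕ → ZMod 2,
    (∀ v ∈ F, Placed s D v ∧ ∀ b < B, ∀ j < 5 * s, P B ω v (Co.real b j) = x b j) → F.card ≤ M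

/-! ### The potential -/

/-- The last `B` pieces above `v`. -/
def U (s B : ℕ) (v : List Bool) : Finset (List Bool) :=
  (Finset.Ico (v.length / (5 * s) - B) (v.length / (5 * s))).image fun t => v.take (t * (5 * s))

/-- The exit below `v.take (t * (5 * s))` matches the target `x`. -/
def Mt {s q : ℕ} (B : ℕ) (ω : List Bool → Opt s q) (x : Finset (ℕ × ℕ)) (v : List Bool) (t : ℕ) :
    Prop :=
  ∀ j < 5 * s, P B ω (v.take ((t + 1) * (5 * s))) (Co.real (t % B) j) =
    if (t % B, j) ∈ x then 1 else 0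

/-- Pieces of a tuple. -/
def UU (s B : ℕ) {r : ℕ} (V : Fin r → List Bool) : Finset (List Bool) :=
  Finset.univ.biUnion fun i => U s B (V i)

open Classical in
/-- A factor of the potential. -/
noncomputable def fac {s q : ℕ} (B : ℕ) (θ : ℝ) (D : Finset (List Bool))
    (ω : List Bool → Opt s q) (x : Finset (ℕ × ℕ)) {r : ℕ} (V : Fin r → List Bool)
    (y : List Bool) : ℝ :=
  if y ∈ D then (if ∀ i, y ∈ U s B (V i) → Mt B ω x (V i) (y.length / (5 * s)) then 1 else 0)
  else θ

/-- A term of the potential. -/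
noncomputable def term {s q : ℕ} (B : ℕ) (θ : ℝ) (D : Finset (List Bool))
    (ω : List Bool → Opt s q) (x : Finset (ℕ × ℕ)) {r : ℕ} (V : Fin r → List Bool) : ℝ :=
  ∏ y ∈ UU s B V, fac B θ D ω x V y

/-- The potential. -/
noncomputable def Phi {s q : ℕ} (B r : ℕ) (θ : ℝ) (T D : Finset (List Bool))
    (ω : List Bool → Opt s q) : ℝ :=
  ∑ x ∈ (Finset.range B ×ˢ Finset.range (5 * s)).powerset,
    ∑ V ∈ Fintype.piFinset (fun _ : Fin r => Bd s T), term B θ D ω x V

end Pool.Agent.Work.MP_bf01b2_co.Lg
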