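import Pool.Agent.Work.MP_bf01b2_co.Lg.Stmts

/-!
# MP_bf01b2_co, item EX
-/

set_option autoImplicit false

namespace Pool.Agent.Work.MP_bf01b2_co.Lg

variable {s q B : ℕ}

private lemma ex_add_mod {a b c q : ℕ} (hb : b < q) (hc : c < q)
    (h : (a + b) % q = (a + c) % q) : b = c := by
  have h1 : a + b ≡ a + c [MOD q] := h
  have h2 : b ≡ c [MOD q] := Nat.ModEq.add_left_cancel' a h1
  have h3 : b % q = c % q := h2
  rwa [Nat.mod_eq_of_lt hb, Nat.mod_eq_of_lt hc] at h3

private lemma ex_bits (hq : 16 ≤ q) (o : Opt s q) (x y : ℕ → Bool) (l : ℕ)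
    (h : pval o x l = pval o y l) :
    x (2 * l) = y (2 * l) ∧ x (2 * l + 1) = y (2 * l + 1) ∧ x (3 * s + l) = y (3 * s + l) := by
  unfold pval dig at h
  have hle : ∀ b : Bool, b.toNat ≤ 1 := fun b => Bool.toNat_le b
  have h1 := hle (x (2 * l))
  have h2 := hle (x (2 * l + 1))
  have h3 := hle (x (3 * s + l))
  have h4 := hle (y (2 * l))
  have h5 := hle (y (2 * l + 1))
  have h6 := hle (y (3 * s + l))
  have h7 := ex_add_mod (by omega) (by omega) h
  have hinj : ∀ a b : Bool, a.toNat = b.toNat → a = b := by decide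
  exact ⟨hinj _ _ (by omega), hinj _ _ (by omega), hinj _ _ (by omega)⟩

theorem exitPsi : ExitPsi := by
  intro s q B hs hB hq ω k u v hu hv1 hv2 htake huv
  have hkk : (k + 1) * (5 * s) = k * (5 * s) + 5 * s := by ring
  by_cases hlen : v.length < (k + 1) * (5 * s)
  · refine ⟨2 * s - 1, pval (ω (u.take (k * (5 * s)))) (bits s k u) (2 * s - 1), ?_⟩
    rw [P_psi hs ω u k (2 * s - 1) _ (by omega) (by omega) (by omega) (by omega),
      P_psi_lt hs ω v k (k % 2) (2 * s - 1) _ hv1 hv2 (by omega), ← htake]
    rw [if_pos rfl]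
    intro h
    have h1 : (1 : ZMod 2) = 0 := by
      have h2 := congrArg (fun z => z - P B ω (u.take (k * (5 * s)))
        (Co.psi (k % 2) (2 * s - 1) (pval (ω (u.take (k * (5 * s)))) (bits s k u) (2 * s - 1)))) h
      simpa using h2
    exact absurd h1 (by decide)
  · by_contra hcon
    push Not at hcon
    apply huv
    have hlv : v.length = (k + 1) * (5 * s) := by omega
    have hp : ∀ l < 2 * s, pval (ω (u.take (k * (5 * s)))) (bits s k u) l =
        pval (ω (u.take (k * (5 * s)))) (bits s k v) l := by
      intro l hl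
      have h1 := hcon l (pval (ω (u.take (k * (5 * s)))) (bits s k u) l)
      rw [P_psi hs ω u k l _ (by omega) (by omega) hl (by omega),
        P_psi hs ω v k l _ (by omega) (by omega) hl (by omega), ← htake] at h1
      rw [if_pos rfl] at h1
      by_contra hne
      rw [if_neg (fun h => hne h.symm)] at h1
      have h2 := add_left_cancel h1
      exact absurd h2 (by decide)
    have hb : ∀ i < 5 * s, bits s k u i = bits s k v i := by
      intro i hi
      by_cases h3 : i < 3 * s
      · have h4 := ex_bits hq _ _ _ _ (hp (i / 2) (by omega))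
        rcases (show i = 2 * (i / 2) ∨ i = 2 * (i / 2) + 1 by omega) with h5 | h5
        · rw [h5]; exact h4.1
        · rw [h5]
          exact h4.2.1
      · have h4 := ex_bits hq _ _ _ _ (hp (i - 3 * s) (by omega))
        have h5 : i = 3 * s + (i - 3 * s) := by omega
        rw [h5]
        exact h4.2.2
    apply List.ext_getElem (by omega)
    intro n h1 h2
    rw [← List.getD_eq_getElem (l := u) (d := false) h1,
      ← List.getD_eq_getElem (l := v) (d := false) h2]
    by_cases h3 : n < k * (5 * s)
    · rw [← getD_take u _ _ h3, ← getD_take v _ _ h3, htake]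
    · have h4 := hb (n - k * (5 * s)) (by omega)
      unfold bits at h4
      rw [show k * (5 * s) + (n - k * (5 * s)) = n by omega] at h4
      exact h4

end Pool.Agent.Work.MP_bf01b2_co.Lg
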