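import Pool.Agent.Work.MP_bf01b2_co.Lg.Stmts

/-!
# MP_bf01b2_co, item FI
-/

set_option autoImplicit false

namespace Pool.Agent.Work.MP_bf01b2_co.Lg

theorem finalInj (hSP : SamePiece) : FinalInj := by
  intro s q B hs hB hq T D ω hT hD hI
  have key : ∀ u ∈ T, ∀ v ∈ T, v.length ≤ u.length → (∀ c, P B ω u c = P B ω v c) → u = v := by
    intro u hu v hv hle hP
    by_contra hne
    have hpos : 0 < u.length := by
      rcases Nat.eq_zero_or_pos u.length with h | h
      · exfalso
        apply hne
        have h1 : u = [] := List.length_eq_zero_iff.mp h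
        have h2 : v = [] := List.length_eq_zero_iff.mp (by omega)
        rw [h1, h2]
      · exact h
    have h5s : 0 < 5 * s := by omega
    obtain ⟨j, hj1, hj2⟩ : ∃ j, j * (5 * s) < u.length ∧ u.length ≤ (j + 1) * (5 * s) := by
      refine ⟨(u.length - 1) / (5 * s), ?_, ?_⟩
      · have h1 := Nat.div_mul_le_self (u.length - 1) (5 * s)
        omega
      · have h1 := Nat.lt_mul_div_succ (u.length - 1) h5s
        rw [mul_comm] at h1
        omega
    have hwl : (u.take (j * (5 * s))).length = j * (5 * s) := by
      rw [List.length_take]; omega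
    by_cases hA : j * (5 * s) ≤ v.length ∧ u.take (j * (5 * s)) = v.take (j * (5 * s))
    · obtain ⟨c, hc⟩ := hSP s q B hs (by omega) hq ω j u v (by omega) hj2 hA.1 (by omega)
        hA.2 hne
      exact hc (hP c)
    · have hne' : v.take (j * (5 * s)) ≠ u.take (j * (5 * s)) := by
        intro h
        apply hA
        refine ⟨?_, h.symm⟩
        have h1 := congrArg List.length h
        rw [hwl, List.length_take] at h1
        omega
      obtain ⟨c, hc1, hc2⟩ := hI j (u.take (j * (5 * s))) (hT u hu _) hwl (hD _ (hT u hu _))
        (v.take (j * (5 * s))) (hT v hv _) (by rw [List.length_take]; omega)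
        (hD _ (hT v hv _)) hne'
      apply hc2
      rw [← P_out hs ω u j c (by omega) hj2 hc1]
      by_cases hv' : j * (5 * s) ≤ v.length
      · rw [← P_out hs ω v j c hv' (by omega) hc1]
        exact hP c
      · rw [List.take_of_length_le (by omega)]
        exact hP c
  intro u hu v hv hP
  have hP' : ∀ c, P B ω u c = P B ω v c := by
    intro c
    by_cases hc : c ∈ allCo s q B
    · exact hP c hc
    · rw [P_notMem hs (by omega) (by omega) ω u c hc, P_notMem hs (by omega) (by omega) ω v c hc]
  rcases le_total v.length u.length with h | h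
  · exact key u hu v hv h hP'
  · exact (key v hv u hu h (fun c => (hP' c).symm)).symm

end Pool.Agent.Work.MP_bf01b2_co.Lg
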