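import Pool.Agent.Work.MP_bf01b2_co.Lg.Stmts

/-!
# MP_bf01b2_co, item HC
-/

set_option autoImplicit false

namespace Pool.Agent.Work.MP_bf01b2_co.Lg

private lemma hc_add_mod {a b c q : ℕ} (hb : b < q) (hc : c < q)
    (h : (b + a) % q = (c + a) % q) : b = c := by
  have h1 : b + a ≡ c + a [MOD q] := h
  have h2 : b ≡ c [MOD q] := Nat.ModEq.add_right_cancel' a h1
  have h3 : b % q = c % q := h2
  rwa [Nat.mod_eq_of_lt hb, Nat.mod_eq_of_lt hc] at h3

theorem hitCount : HitCount := by
  classical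
  intro s q B hs hq ω k w v u l0 hl0 S hS
  set g : Opt s q × (Fin s → Fin q) → Opt s q := fun p =>
    (p.1.1, p.1.2.1, fun l => if h : l0 ≤ (l : ℕ) ∧ (l : ℕ) < l0 + s then
      p.2 ⟨(l : ℕ) - l0, by omega⟩ else p.1.2.2 l) with hg
  have hpv : ∀ o ∈ S, ∀ o' ∈ S, ∀ l, l0 ≤ l → l < l0 + s →
      pval o (bits s k u) l = pval o' (bits s k u) l := by
    intro o ho o' ho' l h1 h2
    have h3 := hS o ho l h1 h2 (pval o (bits s k u) l) (pval_lt (by omega) _ _ _)
    have h4 := hS o' ho' l h1 h2 (pval o (bits s k u) l) (pval_lt (by omega) _ _ _)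
    rw [if_pos rfl] at h3
    rw [h3] at h4
    by_contra hne
    rw [if_neg (fun h => hne h.symm)] at h4
    have h5 := add_left_cancel h4
    exact absurd h5 (by decide)
  have hinj : Set.InjOn g (↑(S ×ˢ (Finset.univ : Finset (Fin s → Fin q))) :
      Set (Opt s q × (Fin s → Fin q))) := by
    rintro ⟨o, f⟩ hof ⟨o', f'⟩ hof' heq
    rw [Finset.mem_coe, Finset.mem_product] at hof hof'
    have ho := hof.1
    have ho' := hof'.1
    simp only at ho ho'
    simp only [hg, Prod.mk.injEq] at heq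
    obtain ⟨h1, h2, h3⟩ := heq
    have hf : f = f' := by
      funext i
      have h4 := congrFun h3 ⟨l0 + i, by omega⟩
      have h5 : l0 ≤ l0 + (i : ℕ) ∧ l0 + (i : ℕ) < l0 + s := by omega
      simp only at h4
      rw [dif_pos h5, dif_pos h5] at h4
      have h6 : (⟨l0 + (i : ℕ) - l0, by omega⟩ : Fin s) = i := by
        apply Fin.ext
        simp
      rw [h6] at h4
      exact h4
    have hr : o.2.2 = o'.2.2 := by
      funext l
      by_cases h4 : l0 ≤ (l : ℕ) ∧ (l : ℕ) < l0 + s
      · have h5 := hpv o ho o' ho' l h4.1 h4.2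
        unfold pval at h5
        have h6 : rv o.2.2 (l : ℕ) = (o.2.2 l : ℕ) := by
          unfold rv
          rw [dif_pos l.2]
        have h7 : rv o'.2.2 (l : ℕ) = (o'.2.2 l : ℕ) := by
          unfold rv
          rw [dif_pos l.2]
        rw [h6, h7] at h5
        exact Fin.ext (hc_add_mod (o.2.2 l).2 (o'.2.2 l).2 h5)
      · have h5 := congrFun h3 l
        rw [dif_neg h4, dif_neg h4] at h5
        exact h5
    have ho2 : o = o' := Prod.ext h1 (Prod.ext h2 hr)
    rw [ho2, hf]
  have hcard := Finset.card_le_card_of_injOn (t := (Finset.univ : Finset (Opt s q))) g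
    (fun _ _ => Finset.mem_coe.mpr (Finset.mem_univ _)) hinj
  rw [Finset.card_product, Finset.card_univ, Finset.card_univ, Fintype.card_fun,
    Fintype.card_fin, Fintype.card_fin] at hcard
  exact hcard

end Pool.Agent.Work.MP_bf01b2_co.Lg
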