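import Pool.Agent.Work.MP_bf01b2_co.Lg.Stmts

/-!
# MP_bf01b2_co, item MC : the new content of the window is uniform
-/

set_option autoImplicit false

namespace Pool.Agent.Work.MP_bf01b2_co.Lg

/-- The set of indices of the first `J` real coordinates for the bits `x`, as a finset of
`Fin (5 * s)`. -/
def mcF (s : ℕ) (x : ℕ → Bool) (J : ℕ) : Finset (Fin (5 * s)) :=
  (Finset.univ : Finset (Fin (5 * s))).filter fun j => ∃ i < J, i < 3 * s ∧ fidx x i = (j : ℕ)

lemma mcF_card (s : ℕ) (x : ℕ → Bool) (J : ℕ) (hJ : J ≤ 3 * s) : (mcF s x J).card = J := by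
  have h : (mcF s x J) = (Finset.univ : Finset (Fin J)).image
      (fun i : Fin J => (⟨fidx x (i : ℕ), fidx_lt x (i : ℕ) (by have := i.2; omega)⟩ :
        Fin (5 * s))) := by
    ext j
    simp only [mcF, Finset.mem_filter, Finset.mem_univ, true_and, Finset.mem_image]
    constructor
    · rintro ⟨i, h1, _, h3⟩
      exact ⟨⟨i, h1⟩, Fin.ext h3⟩
    · rintro ⟨i, hi⟩
      exact ⟨i, i.2, by have := i.2; omega, congrArg Fin.val hi⟩
  rw [h, Finset.card_image_of_injective, Finset.card_univ, Fintype.card_fin]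
  intro i i' hii
  have := congrArg Fin.val hii
  exact Fin.ext (fidx_inj x i i' this)

/-- For every `A` a permutation that sends `A` onto the set of indices of its size. -/
lemma exists_sigma (s : ℕ) (x : ℕ → Bool) (A : Finset (Fin (5 * s))) (hA : A.card ≤ 3 * s) :
    ∃ σ : Equiv.Perm (Fin (5 * s)), A.image σ = mcF s x A.card := by
  have h := mcF_card s x A.card hA
  have e : (A : Set (Fin (5 * s))).ncard = ((mcF s x A.card : Finset _) : Set (Fin (5 * s))).ncard := by
    rw [Set.ncard_coe_finset, Set.ncard_coe_finset, h]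
  have e1 : A ≃ (mcF s x A.card : Finset (Fin (5 * s))) := Finset.equivOfCardEq h.symm
  refine ⟨e1.extendSubtype, ?_⟩
  apply Finset.eq_of_subset_of_card_le
  · intro j hj
    rw [Finset.mem_image] at hj
    obtain ⟨a, ha, rfl⟩ := hj
    rw [Equiv.extendSubtype_apply_of_mem e1 a ha]
    exact (e1 ⟨a, ha⟩).2
  · rw [h, Finset.card_image_of_injective _ (Equiv.injective _)]

theorem matchCount : MatchCount := by
  intro s q B hs hB hq ω k x v hv S hS
  classical
  have hlen : (v.take ((k + 1) * (5 * s))).length = (k + 1) * (5 * s) := by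
    rw [List.length_take]; omega
  have hk : k * (5 * s) ≤ (k + 1) * (5 * s) := Nat.mul_le_mul_right _ (by omega)
  set w := v.take (k * (5 * s)) with hw
  set y := bits s k (v.take ((k + 1) * (5 * s))) with hy
  have hJs : ∀ o : Opt s q, o.1.1.card ≤ 3 * s := fun o => o.1.2
  -- the flipped set is determined
  have hset : ∀ o ∈ S, ∀ j < 5 * s, (j ∈ wset o y (5 * s) ↔
      (P B ω w (Co.real (k % B) j) ≠ if (k % B, j) ∈ x then 1 else 0)) := by
    intro o ho j hj
    have h1 := hS o ho j hj
    rw [P_real hs _ (v.take ((k + 1) * (5 * s))) k j (by rw [hlen]; exact hk) (by rw [hlen]),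
      List.take_take, min_eq_left hk, ← hw, Function.update_self, P_update_self, hlen] at h1
    have h2 : (k + 1) * (5 * s) - k * (5 * s) = 5 * s := by
      rw [add_mul, one_mul]; omega
    rw [h2] at h1
    by_cases hj2 : j ∈ wset o y (5 * s)
    · rw [if_pos hj2] at h1
      simp only [hj2, true_iff]
      intro h3
      rw [h3] at h1
      exact one_ne_zero (left_eq_add.1 h1.symm)
    · rw [if_neg hj2, add_zero] at h1
      simp only [hj2, false_iff, not_not]
      exact h1
  -- the image of the set of indices under the permutation is determined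
  have hset2 : ∀ o ∈ S, (mcF s y o.1.1.card).image o.2.1 =
      (Finset.univ : Finset (Fin (5 * s))).filter (fun j : Fin (5 * s) =>
        (P B ω w (Co.real (k % B) (j : ℕ)) ≠ if (k % B, (j : ℕ)) ∈ x then 1 else 0)) := by
    intro o ho
    ext j
    simp only [Finset.mem_filter, Finset.mem_univ, true_and]
    rw [← hset o ho j j.2]
    unfold wset
    rw [min_eq_right (by have := hJs o; omega)]
    simp only [Finset.mem_image, Finset.mem_range, mcF, Finset.mem_filter, Finset.mem_univ,
      true_and]
    constructor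
    · rintro ⟨a, ⟨i, h1, h2, h3⟩, h4⟩
      refine ⟨i, h1, ?_⟩
      rw [h3]
      unfold pv
      rw [dif_pos a.2]
      rw [← h4]
    · rintro ⟨i, h1, h2⟩
      have h3 : i < 3 * s := by have := hJs o; omega
      refine ⟨⟨fidx y i, fidx_lt y i h3⟩, ⟨i, h1, h3, rfl⟩, ?_⟩
      unfold pv at h2
      rw [dif_pos (fidx_lt y i h3)] at h2
      exact Fin.ext h2
  -- the injection
  let σ : {A : Finset (Fin (5 * s)) // A.card ≤ 3 * s} → Equiv.Perm (Fin (5 * s)) :=
    fun A => (exists_sigma s y A.1 A.2).choose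
  have hσ : ∀ A : {A : Finset (Fin (5 * s)) // A.card ≤ 3 * s},
      A.1.image (σ A) = mcF s y A.1.card := fun A => (exists_sigma s y A.1 A.2).choose_spec
  let f : Opt s q → Equiv.Perm (Fin (5 * s)) × (Fin (2 * s) → Fin q) :=
    fun o => (o.2.1 * σ o.1, o.2.2)
  have hinj : Set.InjOn f S := by
    intro o ho o' ho' hoo
    have hoo' : (o.2.1 * σ o.1, o.2.2) = (o'.2.1 * σ o'.1, o'.2.2) := hoo
    obtain ⟨h1, h2⟩ := Prod.mk.inj hoo'
    have h3 : ∀ p ∈ S, p.1.1.image (p.2.1 * σ p.1) =
        (Finset.univ : Finset (Fin (5 * s))).filter (fun j : Fin (5 * s) =>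
        (P B ω w (Co.real (k % B) (j : ℕ)) ≠ if (k % B, (j : ℕ)) ∈ x then 1 else 0)) := by
      intro p hp
      rw [← hset2 p hp, ← hσ p.1, Finset.image_image]
      rfl
    have h4 : o.1.1 = o'.1.1 := by
      have h5 := (h3 o ho).trans (h3 o' ho').symm
      rw [h1] at h5
      exact Finset.image_injective (Equiv.injective _) h5
    have h6 : o.1 = o'.1 := Subtype.ext h4
    have h7 : o.2.1 = o'.2.1 := by
      rw [h6] at h1
      exact mul_right_cancel h1
    exact Prod.ext h6 (Prod.ext h7 h2)
  calc S.card ≤ (Finset.univ : Finset (Equiv.Perm (Fin (5 * s)) ×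
        (Fin (2 * s) → Fin q))).card :=
        Finset.card_le_card_of_injOn f (fun _ _ => Finset.mem_coe.2 (Finset.mem_univ _)) hinj
    _ = (5 * s).factorial * q ^ (2 * s) := by
        simp [Fintype.card_prod, Fintype.card_perm]

end Pool.Agent.Work.MP_bf01b2_co.Lg
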