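import Pool.Agent.Work.MP_bf01b2_co.Lg.Stmts

/-!
# MP_bf01b2_co, `n + O(log n)` : the combinatorial core
-/

set_option autoImplicit false

namespace Pool.Agent.Work.MP_bf01b2_co.Lg

lemma theta_num (B : ℝ) (hB : 1 ≤ B) (N X g : ℝ) (hX : 0 ≤ X) (h2 : 0 < N)
    (hg : (1 - 1 / (4 * B)) * ((1 - 1 / (4 * B)) * N * X) ≤ g) :
    X ≤ (1 + 1 / B) / N * g := by
  have hB0 : 0 < B := by linarith
  have h1 : (1 : ℝ) ≤ (1 + 1 / B) * ((1 - 1 / (4 * B)) * (1 - 1 / (4 * B))) := by
    set t : ℝ := 1 / B with ht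
    have ht0 : 0 < t := by positivity
    have ht1 : t ≤ 1 := by rw [ht, div_le_one hB0]; exact hB
    have e : 1 / (4 * B) = t / 4 := by rw [ht]; field_simp
    rw [e]
    nlinarith [mul_nonneg ht0.le (sub_nonneg.2 ht1), mul_nonneg (mul_nonneg ht0.le ht0.le) ht0.le]
  have h3 : (1 + 1 / B) / N * ((1 - 1 / (4 * B)) * ((1 - 1 / (4 * B)) * N * X)) ≤
      (1 + 1 / B) / N * g := mul_le_mul_of_nonneg_left hg (by positivity)
  have h4 : (1 + 1 / B) / N * ((1 - 1 / (4 * B)) * ((1 - 1 / (4 * B)) * N * X)) =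
      (1 + 1 / B) * ((1 - 1 / (4 * B)) * (1 - 1 / (4 * B))) * X := by
    field_simp
  rw [h4] at h3
  refine le_trans ?_ h3
  nlinarith

/-- Enough good options. -/
lemma good_card (hOC : OptCard) (s q B : ℕ) (hs : 0 < s) (hB : 2 ≤ B)
    (h1 : 4 * B * 3125 ^ s ≤ 3456 ^ s) (S G : ℕ)
    (hS : 4 * B * S ≤ Fintype.card (Opt s q)) (hSG : S + G = Fintype.card (Opt s q)) :
    (((5 * s).factorial * q ^ (2 * s) : ℕ) : ℝ) ≤ th s B * G := by
  have h2 := hOC s q B hs (by omega) h1
  set X : ℕ := (5 * s).factorial * q ^ (2 * s) with hX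
  set N : ℕ := 2 ^ (5 * s) with hN
  set Ω : ℕ := Fintype.card (Opt s q) with hΩ
  have hBr : (2 : ℝ) ≤ B := by exact_mod_cast hB
  unfold th
  have hN' : ((2 : ℝ) ^ (5 * s)) = (N : ℝ) := by rw [hN]; push_cast; rfl
  rw [hN']
  apply theta_num (B : ℝ) (by linarith) (N : ℝ) (X : ℝ) (G : ℝ) (by positivity)
    (by rw [hN]; positivity)
  have h3 : ((4 * (B : ℝ) - 1) * N * X) ≤ 4 * B * Ω := by
    have : (((4 * B - 1) * N * X : ℕ) : ℝ) ≤ ((4 * B * Ω : ℕ) : ℝ) := by exact_mod_cast h2
    push_cast [Nat.cast_sub (show 1 ≤ 4 * B by omega)] at this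
    exact this
  have h4 : 4 * (B : ℝ) * S ≤ Ω := by exact_mod_cast hS
  have h5 : (S : ℝ) + G = Ω := by exact_mod_cast hSG
  have hB0 : (0 : ℝ) < 4 * B := by linarith
  have h6 : (1 - 1 / (4 * (B : ℝ))) * N * X ≤ Ω := by
    have : (1 - 1 / (4 * (B : ℝ))) * N * X = ((4 * (B : ℝ) - 1) * N * X) / (4 * B) := by
      field_simp
    rw [this, div_le_iff₀ hB0]
    linarith
  have h7 : (1 - 1 / (4 * (B : ℝ))) * Ω ≤ G := by
    have : (S : ℝ) ≤ Ω / (4 * B) := by rw [le_div_iff₀ hB0]; linarith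
    have e : (1 - 1 / (4 * (B : ℝ))) * Ω = Ω - Ω / (4 * B) := by ring
    rw [e]; linarith
  refine le_trans (mul_le_mul_of_nonneg_left h6 ?_) h7
  rw [sub_nonneg, div_le_one hB0]; linarith

/-- The induction. -/
lemma exists_state (hST : StepInv) (hCC : ConfCount) (hOC : OptCard) (hPS : PhiStep)
    (hPL : PhiLoad) (hPI : PhiInit)
    (s B q n : ℕ) (hs : 0 < s) (hB : 2 ≤ B) (hq : 16 ≤ q) (hn : n ≤ 5 * s * B)
    (h1 : 4 * B * 3125 ^ s ≤ 3456 ^ s)
    (h2 : 4 * B * (2 ^ (25 * s + 2) * (B * MM s B)) ≤ q ^ s)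
    (T : Finset (List Bool)) (hTc : PrefClosed T) (hT : T.card ≤ 2 ^ n) :
    ∀ m ≤ (Bd s T).card,
      ∃ D ⊆ Bd s T, D.card = m ∧
        (∀ w ∈ D, ∀ w' ∈ Bd s T, w'.length < w.length → w' ∈ D) ∧
        ∃ ω : List Bool → Opt s q, Inv1 B T D ω ∧ Inv2 B T D ω ∧
          Phi B (5 * s * B) (th s B) T D ω ≤ (MM s B : ℝ) ^ (5 * s * B) := by
  classical
  have hq0 : 0 < q := by omega
  have hH : 0 < 5 * s := by omega
  intro m
  induction m with
  | zero =>
    intro _
    have hne : Nonempty (Opt s q) :=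
      ⟨⟨⟨∅, by simp⟩, Equiv.refl _, fun _ => ⟨0, hq0⟩⟩⟩
    obtain ⟨o0⟩ := hne
    refine ⟨∅, Finset.empty_subset _, rfl, fun w hw => absurd hw (Finset.notMem_empty _),
      fun _ => o0, ?_, ?_, hPI s q B n hs (by omega) hn T _ hT⟩
    · intro k u hu hul hup v hv hvl hvp hne
      exfalso
      rcases Nat.eq_zero_or_pos u.length with h0 | h0
      · have hk : k * (5 * s) = 0 := by omega
        have h3 : v.length = 0 := by omega
        apply hne
        rw [List.length_eq_zero_iff.1 h0, List.length_eq_zero_iff.1 h3]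
      · have := hup 0 (by rw [zero_mul]; exact h0)
        exact absurd this (Finset.notMem_empty _)
    · intro k u hu hul hup
      exfalso
      have := hup 0 (by rw [zero_mul, hul]; exact Nat.mul_pos (by omega) hH)
      exact absurd this (Finset.notMem_empty _)
  | succ m ih =>
    intro hm
    obtain ⟨D, hDsub, hDcard, hDcl, ω, hInv1, hInv2, hPhi⟩ := ih (by omega)
    have hne : (Bd s T \ D).Nonempty := by
      rw [← Finset.card_pos, Finset.card_sdiff_of_subset hDsub]
      omega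
    obtain ⟨w, hw, hwmin⟩ := Finset.exists_min_image (Bd s T \ D) List.length hne
    rw [Finset.mem_sdiff] at hw
    obtain ⟨hwBd, hwD⟩ := hw
    have hwBd' := hwBd
    unfold Bd at hwBd'
    rw [Finset.mem_filter] at hwBd'
    obtain ⟨k, hk⟩ : ∃ k, w.length = k * (5 * s) := by
      obtain ⟨k, hk⟩ := Nat.dvd_of_mod_eq_zero hwBd'.2
      exact ⟨k, by rw [hk, mul_comm]⟩
    have hD : ∀ w' ∈ D, w'.length ≤ k * (5 * s) := by
      intro w' hw'
      by_contra hn'
      push Not at hn'
      exact hwD (hDcl w' hw' w hwBd (by rw [hk]; exact hn'))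
    have hwP : Placed s D w := by
      intro t ht
      have hlen : (w.take (t * (5 * s))).length = t * (5 * s) := by
        rw [List.length_take, min_eq_left ht.le]
      have hmem : w.take (t * (5 * s)) ∈ Bd s T := by
        unfold Bd
        rw [Finset.mem_filter]
        exact ⟨hTc w hwBd'.1 _, by rw [hlen, Nat.mul_mod_left]⟩
      by_contra hnD
      have := hwmin _ (Finset.mem_sdiff.2 ⟨hmem, hnD⟩)
      rw [hlen] at this
      omega
    set S := Finset.univ.filter fun o : Opt s q => Conf B T D ω k w o with hS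
    set G := Finset.univ.filter fun o : Opt s q => ¬ Conf B T D ω k w o with hG
    have hr : 0 < 5 * s * B := Nat.mul_pos hH (by omega)
    have hLoad : Load B (MM s B) T D ω := by
      apply hPL s q B (5 * s * B) (MM s B) hs (by omega) (th s B) (by unfold th; positivity)
      refine lt_of_le_of_lt hPhi ?_
      apply pow_lt_pow_left₀ (by linarith) (by positivity) hr.ne'
    have hScard : 4 * B * S.card ≤ Fintype.card (Opt s q) := by
      have h3 := hCC s q B (MM s B) hs hB hq T D ω w k hTc hLoad S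
        (fun o ho => (Finset.mem_filter.1 ho).2)
      have h4 : 4 * B * S.card * q ^ s ≤ Fintype.card (Opt s q) * q ^ s := by
        calc 4 * B * S.card * q ^ s = 4 * B * (S.card * q ^ s) := by ring
          _ ≤ 4 * B * (2 ^ (25 * s + 2) * (B * MM s B) * Fintype.card (Opt s q)) :=
              Nat.mul_le_mul_left _ h3
          _ = (4 * B * (2 ^ (25 * s + 2) * (B * MM s B))) * Fintype.card (Opt s q) := by ring
          _ ≤ q ^ s * Fintype.card (Opt s q) := Nat.mul_le_mul_right _ h2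
          _ = Fintype.card (Opt s q) * q ^ s := by ring
      exact Nat.le_of_mul_le_mul_right h4 (by positivity)
    have hsum : S.card + G.card = Fintype.card (Opt s q) := by
      rw [hS, hG, Finset.card_filter_add_card_filter_not, Finset.card_univ]
    have hgood := good_card hOC s q B hs hB h1 S.card G.card hScard hsum
    have hG0 : G.Nonempty := by
      rw [← Finset.card_pos]
      by_contra hcon
      have : G.card = 0 := by omega
      rw [this, Nat.cast_zero, mul_zero] at hgood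
      have h5 : (0 : ℝ) < (((5 * s).factorial * q ^ (2 * s) : ℕ) : ℝ) := by
        have : 0 < (5 * s).factorial * q ^ (2 * s) :=
          Nat.mul_pos (Nat.factorial_pos _) (pow_pos hq0 _)
        exact_mod_cast this
      linarith
    obtain ⟨o, hoG, hoPhi⟩ := hPS s q B (5 * s * B) hs hB hq0 (th s B) (by unfold th; positivity)
      T D ω w k hk hwD hD G hG0 hgood
    have hst := hST s q B hs hB hq T D ω w k hTc hwBd'.1 hk hwD hwP hD hInv1 hInv2 o
      (Finset.mem_filter.1 hoG).2
    refine ⟨insert w D, Finset.insert_subset hwBd hDsub, ?_, ?_, Function.update ω w o,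
      hst.1, hst.2, hoPhi.trans hPhi⟩
    · rw [Finset.card_insert_of_notMem hwD, hDcard]
    · intro a ha b hb hab
      rcases Finset.mem_insert.1 ha with ha | ha
      · by_cases hbD : b ∈ D
        · exact Finset.mem_insert_of_mem hbD
        · have := hwmin b (Finset.mem_sdiff.2 ⟨hb, hbD⟩)
          rw [ha] at hab
          omega
      · exact Finset.mem_insert_of_mem (hDcl a ha b hb hab)

theorem core (hST : StepInv) (hFI : FinalInj) (hCC : ConfCount) (hOC : OptCard)
    (hPS : PhiStep) (hPL : PhiLoad) (hPI : PhiInit) : Core := by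
  intro s B q n hs hB hq hn h1 h2 T hTc hT
  obtain ⟨D, hDsub, hDcard, _, ω, hInv1, _, _⟩ := exists_state hST hCC hOC hPS hPL hPI
    s B q n hs hB hq hn h1 h2 T hTc hT (Bd s T).card (le_refl _)
  have hD : D = Bd s T := Finset.eq_of_subset_of_card_le hDsub hDcard.ge
  refine ⟨ω, hFI s q B hs hB hq T D ω hTc ?_ hInv1⟩
  intro v hv t ht
  rw [hD]
  unfold Bd
  rw [Finset.mem_filter]
  refine ⟨hTc v hv _, ?_⟩
  rw [List.length_take, min_eq_left ht.le, Nat.mul_mod_left]

end Pool.Agent.Work.MP_bf01b2_co.Lg
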