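import Pool.Agent.Work.MP_bf01b2_co.Lg.Stmts

/-!
# MP_bf01b2_co, item NU : choice of the parameters
-/

set_option autoImplicit false

namespace Pool.Agent.Work.MP_bf01b2_co.Lg

theorem params : Params := by
  refine ⟨60 * (16 + 4 * 2 ^ 40), ?_⟩
  intro n hn
  obtain ⟨l, hl⟩ : ∃ l, l = Nat.log 2 n + 1 := ⟨_, rfl⟩
  obtain ⟨m, hm⟩ : ∃ m, m = l + 2 := ⟨_, rfl⟩
  obtain ⟨s, hs⟩ : ∃ s, s = 10 * m := ⟨_, rfl⟩
  obtain ⟨B, hB⟩ : ∃ B, B = n / (5 * s) + 2 := ⟨_, rfl⟩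
  have hlow : n < 2 ^ l := by rw [hl]; exact Nat.lt_pow_succ_log_self (by norm_num) n
  have hup : 2 ^ (l - 1) ≤ n := by
    rw [hl, Nat.add_sub_cancel]; exact Nat.pow_log_le_self 2 (by omega)
  have hs20 : 20 ≤ s := by omega
  have hdiv : n / (5 * s) ≤ n / 100 := Nat.div_le_div_left (by omega) (by norm_num)
  have hBn : B ≤ n + 1 := by omega
  have hBl : B ≤ 2 ^ l := by omega
  have hmul : 5 * s * (n / (5 * s)) ≤ n := Nat.mul_div_le n (5 * s)
  have hmul' : n < 5 * s * (n / (5 * s) + 1) := Nat.lt_mul_div_succ n (by omega)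
  have hB2 : 2 ≤ B := by rw [hB]; exact Nat.le_add_left 2 _
  refine ⟨s, B, 2 ^ 40, by omega, hB2, by norm_num, ?_, ?_, ?_, ?_⟩
  · rw [hB]
    have : 5 * s * (n / (5 * s) + 2) = 5 * s * (n / (5 * s) + 1) + 5 * s := by ring
    omega
  · have h1 : 2 * 3125 ^ 10 ≤ 3456 ^ 10 := by norm_num
    have h2 : (2 * 3125 ^ 10) ^ m ≤ (3456 ^ 10) ^ m := Nat.pow_le_pow_left h1 m
    have h3 : 4 * B ≤ 2 ^ m := by
      rw [hm, pow_add]
      omega
    calc 4 * B * 3125 ^ s ≤ 2 ^ m * 3125 ^ s := Nat.mul_le_mul_right _ h3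
      _ = (2 * 3125 ^ 10) ^ m := by rw [hs, mul_pow, pow_mul]
      _ ≤ (3456 ^ 10) ^ m := h2
      _ = 3456 ^ s := by rw [hs, pow_mul]
  · have hsl : s ≤ 40 * 2 ^ l := by
      have h1 : l < 2 ^ l := Nat.lt_two_pow_self
      have h2 : 1 ≤ 2 ^ l := Nat.one_le_two_pow
      omega
    have h5 : B ^ 5 ≤ 2 ^ (5 * l) := by
      rw [mul_comm, pow_mul]
      exact Nat.pow_le_pow_left hBl 5
    have h6 : 1440 * s * B ^ 5 ≤ 2 ^ (10 * s) := by
      calc 1440 * s * B ^ 5 ≤ 1440 * (40 * 2 ^ l) * 2 ^ (5 * l) :=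
            Nat.mul_le_mul (Nat.mul_le_mul_left _ hsl) h5
        _ = 57600 * 2 ^ (6 * l) := by
            have : 2 ^ (6 * l) = 2 ^ l * 2 ^ (5 * l) := by rw [← pow_add]; congr 1; ring
            rw [this]; ring
        _ ≤ 2 ^ 16 * 2 ^ (6 * l) := Nat.mul_le_mul_right _ (by norm_num)
        _ = 2 ^ (16 + 6 * l) := by rw [pow_add]
        _ ≤ 2 ^ (10 * s) := Nat.pow_le_pow_right (by norm_num) (by omega)
    calc 4 * B * (2 ^ (25 * s + 2) * (B * MM s B))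
        = 1440 * s * B ^ 5 * 2 ^ (30 * s) := by
          have e1 : 2 ^ (25 * s + 2) = 2 ^ (25 * s) * 4 := by rw [pow_add]; norm_num
          have e2 : 2 ^ (30 * s) = 2 ^ (25 * s) * 2 ^ (5 * s) := by
            rw [← pow_add]; congr 1; ring
          rw [MM, e1, e2]
          ring
      _ ≤ 2 ^ (10 * s) * 2 ^ (30 * s) := Nat.mul_le_mul_right _ h6
      _ = (2 ^ 40) ^ s := by rw [← pow_add, ← pow_mul]; congr 1; ring
  · have hnr : (2 : ℝ) ≤ n := by exact_mod_cast hn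
    have hlog2 : (0.69 : ℝ) < Real.log 2 := lt_trans (by norm_num) Real.log_two_gt_d9
    have hlogn : Real.log 2 ≤ Real.log n := Real.log_le_log (by norm_num) hnr
    have h1 : ((l - 1 : ℕ) : ℝ) * Real.log 2 ≤ Real.log n := by
      rw [← Real.log_pow]
      apply Real.log_le_log (by positivity)
      exact_mod_cast hup
    have h2 : ((l - 1 : ℕ) : ℝ) = (l : ℝ) - 1 := by
      rw [Nat.cast_sub (by omega)]; simp
    rw [h2] at h1
    have hl1 : (0 : ℝ) ≤ (l : ℝ) - 1 := by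
      have : (1 : ℝ) ≤ l := by exact_mod_cast (show 1 ≤ l by omega)
      linarith
    have h3 : ((l : ℝ) - 1) * 0.69 ≤ Real.log n := by nlinarith
    have hsr : (s : ℝ) ≤ 60 * Real.log n := by
      have : (s : ℝ) = 10 * ((l : ℝ) + 2) := by rw [hs, hm]; push_cast; ring
      rw [this]
      linarith
    have hnat : 5 * s * B + 6 * s + 4 * s * 2 ^ 40 ≤ n + (16 + 4 * 2 ^ 40) * s := by
      have : 5 * s * B = 5 * s * (n / (5 * s)) + 10 * s := by rw [hB]; ring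
      rw [this]
      have e : (16 + 4 * 2 ^ 40) * s = 10 * s + 6 * s + 4 * s * 2 ^ 40 := by ring
      rw [e]
      omega
    have hreal : ((5 * s * B + 6 * s + 4 * s * 2 ^ 40 : ℕ) : ℝ) ≤
        n + (16 + 4 * 2 ^ 40) * s := by exact_mod_cast hnat
    refine hreal.trans ?_
    have : (16 + 4 * 2 ^ 40 : ℝ) * s ≤ (16 + 4 * 2 ^ 40) * (60 * Real.log n) :=
      mul_le_mul_of_nonneg_left hsr (by norm_num)
    linarith

end Pool.Agent.Work.MP_bf01b2_co.Lg
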