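import Pool.Agent.Work.MP_bf01b2_co.Lg.Stmts

/-!
# MP_bf01b2_co, item OC : the number of options
-/

set_option autoImplicit false

namespace Pool.Agent.Work.MP_bf01b2_co.Lg

/-- The number of sets of size more than `3 * s`. -/
lemma oc_tail (s : ℕ) :
    ((Finset.univ : Finset (Finset (Fin (5 * s)))).filter fun A => ¬ A.card ≤ 3 * s).card *
      108 ^ s ≤ 3125 ^ s := by
  have h1 : ∑ A ∈ (Finset.univ : Finset (Fin (5 * s))).powerset,
      3 ^ A.card * 2 ^ ((Finset.univ : Finset (Fin (5 * s))).card - A.card) =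
        (3 + 2) ^ (Finset.univ : Finset (Fin (5 * s))).card :=
    Finset.sum_pow_mul_eq_add_pow 3 2 _
  rw [Finset.powerset_univ, Finset.card_univ, Fintype.card_fin] at h1
  have h2 : ((Finset.univ : Finset (Finset (Fin (5 * s)))).filter
      fun A => ¬ A.card ≤ 3 * s).card * 108 ^ s ≤
      ∑ A ∈ (Finset.univ : Finset (Finset (Fin (5 * s)))).filter (fun A => ¬ A.card ≤ 3 * s),
        3 ^ A.card * 2 ^ (5 * s - A.card) := by
    rw [← smul_eq_mul, ← Finset.sum_const]
    apply Finset.sum_le_sum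
    intro A hA
    rw [Finset.mem_filter] at hA
    have hA2 : 3 * s < A.card := not_le.1 hA.2
    have hA3 : A.card ≤ 5 * s := by
      have := Finset.card_le_univ A
      rwa [Fintype.card_fin] at this
    obtain ⟨d, hd⟩ := Nat.exists_eq_add_of_lt hA2
    have hd2 : A.card = 3 * s + (d + 1) := by omega
    obtain ⟨e, he⟩ := Nat.exists_eq_add_of_le hA3
    have h5 : 5 * s - A.card = e := by omega
    rw [h5, hd2]
    have h6 : 2 * s = (d + 1) + e := by omega
    calc 108 ^ s = (3 ^ 3 * 2 ^ 2) ^ s := by norm_num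
      _ = 3 ^ (3 * s) * 2 ^ (2 * s) := by rw [mul_pow, ← pow_mul, ← pow_mul]
      _ = 3 ^ (3 * s) * (2 ^ (d + 1) * 2 ^ e) := by rw [h6, pow_add 2 (d + 1) e]
      _ ≤ 3 ^ (3 * s) * (3 ^ (d + 1) * 2 ^ e) :=
          Nat.mul_le_mul_left _ (Nat.mul_le_mul_right _ (Nat.pow_le_pow_left (by norm_num) _))
      _ = 3 ^ (3 * s + (d + 1)) * 2 ^ e := by rw [pow_add 3 (3 * s) (d + 1)]; ring
  have h3 : ∑ A ∈ (Finset.univ : Finset (Finset (Fin (5 * s)))).filter
      (fun A => ¬ A.card ≤ 3 * s), 3 ^ A.card * 2 ^ (5 * s - A.card) ≤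
      ∑ A : Finset (Fin (5 * s)), 3 ^ A.card * 2 ^ (5 * s - A.card) :=
    Finset.sum_le_sum_of_subset (Finset.filter_subset _ _)
  calc _ ≤ _ := h2
    _ ≤ _ := h3
    _ = (3 + 2) ^ (5 * s) := h1
    _ = 3125 ^ s := by rw [pow_mul]; norm_num

theorem optCard : OptCard := by
  intro s q B hs hB hle
  have hc : Fintype.card (Opt s q) =
      Fintype.card {A : Finset (Fin (5 * s)) // A.card ≤ 3 * s} *
        ((5 * s).factorial * q ^ (2 * s)) := by
    simp [Opt, Fintype.card_prod, Fintype.card_perm]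
  rw [hc, Fintype.card_subtype, ← mul_assoc (4 * B)]
  apply Nat.mul_le_mul_right
  set N := ((Finset.univ : Finset (Finset (Fin (5 * s)))).filter fun A => A.card ≤ 3 * s).card
    with hN
  set t := ((Finset.univ : Finset (Finset (Fin (5 * s)))).filter
    fun A => ¬ A.card ≤ 3 * s).card with ht
  have h1 : N + t = 2 ^ (5 * s) := by
    rw [hN, ht, Finset.card_filter_add_card_filter_not, Finset.card_univ, Fintype.card_finset,
      Fintype.card_fin]
  have h2 : t * 108 ^ s ≤ 3125 ^ s := oc_tail s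
  have h3 : 4 * B * t * 108 ^ s ≤ 2 ^ (5 * s) * 108 ^ s := by
    calc 4 * B * t * 108 ^ s = 4 * B * (t * 108 ^ s) := by ring
      _ ≤ 4 * B * 3125 ^ s := Nat.mul_le_mul_left _ h2
      _ ≤ 3456 ^ s := hle
      _ = 2 ^ (5 * s) * 108 ^ s := by rw [pow_mul, ← mul_pow]; norm_num
  have h4 : 4 * B * t ≤ 2 ^ (5 * s) := Nat.le_of_mul_le_mul_right h3 (by positivity)
  have h5 : 4 * B * N = 4 * B * 2 ^ (5 * s) - 4 * B * t := by
    rw [← h1, mul_add]; omega
  rw [h5, Nat.sub_mul, one_mul]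
  omega

end Pool.Agent.Work.MP_bf01b2_co.Lg
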