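import Pool.Agent.Work.MP_bf01b2_co.Lg.Stmts

/-!
# MP_bf01b2_co, `n + O(log n)` : item PA
-/

set_option autoImplicit false

namespace Pool.Agent.Work.MP_bf01b2_co.Lg

namespace PA

theorem card_len (m : ℕ) (S : Finset (List Bool)) (h : ∀ v ∈ S, v.length = m) :
    S.card ≤ 2 ^ m := by
  classical
  have h1 : S.card ≤ (Finset.univ : Finset (Fin m → Bool)).card := by
    refine Finset.card_le_card_of_injOn (fun v i => v.getD i false) (fun v _ => by simp) ?_
    intro v hv w hw hvw
    have hv' := h v hv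
    have hw' := h w hw
    apply List.ext_getElem (by rw [hv', hw'])
    intro i h1 h2
    have := congrFun hvw ⟨i, by omega⟩
    simp only [List.getD_eq_getElem?_getD] at this
    rw [List.getElem?_eq_getElem h1, List.getElem?_eq_getElem h2] at this
    simpa using this
  simpa using h1

theorem card_ext (z : List Bool) (m : ℕ) (S : Finset (List Bool))
    (h : ∀ v ∈ S, v.take z.length = z ∧ v.length = z.length + m) : S.card ≤ 2 ^ m := by
  classical
  have h1 : (S.image fun v => v.drop z.length).card = S.card := by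
    apply Finset.card_image_of_injOn
    intro v hv w hw hvw
    have e1 := (h v hv).1
    have e2 := (h w hw).1
    rw [← List.take_append_drop z.length v, ← List.take_append_drop z.length w, e1, e2]
    congr 1
  rw [← h1]
  apply card_len
  intro v hv
  obtain ⟨w, hw, rfl⟩ := Finset.mem_image.mp hv
  have := (h w hw).2
  rw [List.length_drop]
  omega

theorem one_add_pow (B m : ℕ) (hB : 0 < B) (hm : m ≤ B) : (1 + 1 / (B : ℝ)) ^ m ≤ 3 := by
  have hB' : (0 : ℝ) < B := Nat.cast_pos.mpr hB
  have h1 : (1 + 1 / (B : ℝ)) ≤ Real.exp (1 / (B : ℝ)) := by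
    have := Real.add_one_le_exp (1 / (B : ℝ))
    linarith
  have h2 : (1 + 1 / (B : ℝ)) ^ m ≤ Real.exp (1 / (B : ℝ)) ^ m :=
    pow_le_pow_left₀ (by positivity) h1 m
  rw [← Real.exp_nat_mul] at h2
  have h3 : (m : ℝ) * (1 / (B : ℝ)) ≤ 1 := by
    rw [mul_one_div, div_le_one hB']
    exact_mod_cast hm
  have h4 : Real.exp ((m : ℝ) * (1 / (B : ℝ))) ≤ Real.exp 1 := Real.exp_le_exp.mpr h3
  have h5 := Real.exp_one_lt_d9
  linarith

theorem th_nonneg (s B : ℕ) : 0 ≤ th s B := by
  unfold th
  positivity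

theorem th_le_one (s B : ℕ) (hs : 0 < s) (hB : 0 < B) : th s B ≤ 1 := by
  unfold th
  rw [div_le_one (by positivity)]
  have hB' : (1 : ℝ) ≤ B := by exact_mod_cast hB
  have h1 : 1 / (B : ℝ) ≤ 1 := by
    rw [div_le_one (by linarith)]
    exact hB'
  have h2 : (2 : ℝ) ^ 1 ≤ 2 ^ (5 * s) := pow_le_pow_right₀ (by norm_num) (by omega)
  linarith

theorem th_pow (s B m : ℕ) (hB : 0 < B) (hm : m ≤ B) :
    (2 : ℝ) ^ (m * (5 * s)) * th s B ^ m ≤ 3 := by
  unfold th
  rw [div_pow, ← pow_mul, mul_comm (5 * s) m]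
  rw [mul_div_cancel₀ _ (by positivity)]
  exact one_add_pow B m hB hm

/-- summand for the vertices with a piece in `A` -/
noncomputable def g (s B : ℕ) (z : List Bool) (ν : ℕ) (v : List Bool) : ℝ :=
  if v.take z.length = z ∧ v.length = z.length + (ν + 1) * (5 * s) then th s B ^ ν else 0

theorem g_nonneg (s B : ℕ) (z : List Bool) (ν : ℕ) (v : List Bool) : 0 ≤ g s B z ν v := by
  unfold g
  split_ifs
  · exact pow_nonneg (th_nonneg s B) _
  · exact le_rfl

theorem take_inj (s : ℕ) (hs : 0 < s) (v : List Bool) (κ : ℕ) (hv : v.length = κ * (5 * s))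
    (t t' : ℕ) (ht : t < κ) (ht' : t' < κ) (h : v.take (t * (5 * s)) = v.take (t' * (5 * s))) :
    t = t' := by
  have h1 := congrArg List.length h
  rw [List.length_take, List.length_take, hv] at h1
  have e1 : t * (5 * s) ≤ κ * (5 * s) := Nat.mul_le_mul_right _ ht.le
  have e2 : t' * (5 * s) ≤ κ * (5 * s) := Nat.mul_le_mul_right _ ht'.le
  rw [min_eq_left e1, min_eq_left e2] at h1
  exact Nat.eq_of_mul_eq_mul_right (by omega) h1

theorem term_le (s B : ℕ) (hs : 0 < s) (hB : 0 < B) (A : Finset (List Bool)) (v : List Bool)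
    (hv : v.length % (5 * s) = 0) :
    th s B ^ (U s B v \ A).card ≤ th s B ^ (v.length / (5 * s) - (v.length / (5 * s) - B)) +
      ∑ z ∈ A, ∑ ν ∈ Finset.range B, g s B z ν v := by
  classical
  set κ := v.length / (5 * s) with hκ
  have hvl : v.length = κ * (5 * s) := by
    rw [hκ]
    exact (Nat.div_mul_cancel (Nat.dvd_of_mod_eq_zero hv)).symm
  have hnn : 0 ≤ ∑ z ∈ A, ∑ ν ∈ Finset.range B, g s B z ν v :=
    Finset.sum_nonneg fun z _ => Finset.sum_nonneg fun ν _ => g_nonneg s B z ν v
  by_cases hA : ∃ t ∈ Finset.Ico (κ - B) κ, v.take (t * (5 * s)) ∈ A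
  · obtain ⟨t₀, ht₀, ht₀A⟩ := hA
    set F := (Finset.Ico (κ - B) κ).filter fun t => v.take (t * (5 * s)) ∈ A with hF
    have hFne : F.Nonempty := ⟨t₀, Finset.mem_filter.mpr ⟨ht₀, ht₀A⟩⟩
    set t := F.max' hFne with htdef
    have htF : t ∈ F := Finset.max'_mem F hFne
    obtain ⟨ht, htA⟩ := Finset.mem_filter.mp htF
    obtain ⟨ht1, ht2⟩ := Finset.mem_Ico.mp ht
    set z := v.take (t * (5 * s)) with hz
    have hzl : z.length = t * (5 * s) := by
      rw [hz, List.length_take, hvl]
      exact min_eq_left (Nat.mul_le_mul_right _ ht2.le)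
    have hcard : κ - 1 - t ≤ (U s B v \ A).card := by
      have h1 : ((Finset.Ioo t κ).image fun t' => v.take (t' * (5 * s))).card = κ - 1 - t := by
        rw [Finset.card_image_of_injOn, Nat.card_Ioo]
        · omega
        · intro x hx y hy hxy
          exact take_inj s hs v κ hvl x y (Finset.mem_Ioo.mp (Finset.mem_coe.mp hx)).2
            (Finset.mem_Ioo.mp (Finset.mem_coe.mp hy)).2 hxy
      rw [← h1]
      apply Finset.card_le_card
      intro y hy
      obtain ⟨t', ht', rfl⟩ := Finset.mem_image.mp hy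
      obtain ⟨h2, h3⟩ := Finset.mem_Ioo.mp ht'
      have h4 : t' ∈ Finset.Ico (κ - B) κ := Finset.mem_Ico.mpr ⟨by omega, h3⟩
      refine Finset.mem_sdiff.mpr ⟨Finset.mem_image.mpr ⟨t', h4, rfl⟩, ?_⟩
      intro h5
      have h6 : t' ≤ t := Finset.le_max' F t' (Finset.mem_filter.mpr ⟨h4, h5⟩)
      omega
    have hle : th s B ^ (U s B v \ A).card ≤ th s B ^ (κ - 1 - t) :=
      pow_le_pow_of_le_one (th_nonneg s B) (th_le_one s B hs hB) hcard
    have hg : g s B z (κ - 1 - t) v = th s B ^ (κ - 1 - t) := by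
      unfold g
      rw [if_pos]
      refine ⟨?_, ?_⟩
      · rw [hzl]
      · rw [hzl, hvl, ← Nat.add_mul]
        congr 1
        omega
    have h7 : g s B z (κ - 1 - t) v ≤ ∑ z ∈ A, ∑ ν ∈ Finset.range B, g s B z ν v := by
      refine le_trans ?_ (Finset.single_le_sum
        (f := fun z => ∑ ν ∈ Finset.range B, g s B z ν v)
        (fun z _ => Finset.sum_nonneg fun ν _ => g_nonneg s B z ν v) htA)
      exact Finset.single_le_sum (f := fun ν => g s B z ν v)
        (fun ν _ => g_nonneg s B z ν v) (Finset.mem_range.mpr (by omega))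
    have h8 : 0 ≤ th s B ^ (κ - (κ - B)) := pow_nonneg (th_nonneg s B) _
    linarith
  · have hcard : (U s B v \ A).card = κ - (κ - B) := by
      have h1 : U s B v \ A = U s B v := by
        rw [Finset.sdiff_eq_self_iff_disjoint, Finset.disjoint_left]
        intro y hy hyA
        obtain ⟨t, ht, rfl⟩ := Finset.mem_image.mp hy
        exact hA ⟨t, ht, hyA⟩
      rw [h1]
      unfold U
      rw [Finset.card_image_of_injOn, Nat.card_Ico]
      intro x hx y hy hxy
      exact take_inj s hs v κ hvl x y (Finset.mem_Ico.mp (Finset.mem_coe.mp hx)).2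
        (Finset.mem_Ico.mp (Finset.mem_coe.mp hy)).2 hxy
    rw [hcard]
    linarith

theorem sum_f0 (s B n : ℕ) (hs : 0 < s) (hB : 0 < B) (hn : n ≤ 5 * s * B)
    (T : Finset (List Bool)) (hT : T.card ≤ 2 ^ n) :
    ∑ v ∈ Bd s T, th s B ^ (v.length / (5 * s) - (v.length / (5 * s) - B)) ≤ 3 * B + 3 := by
  classical
  rw [← Finset.sum_filter_add_sum_filter_not (Bd s T) (fun v => v.length / (5 * s) < B)]
  have h1 : ∑ v ∈ (Bd s T).filter (fun v => v.length / (5 * s) < B),
      th s B ^ (v.length / (5 * s) - (v.length / (5 * s) - B)) ≤ 3 * B := by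
    rw [← Finset.sum_fiberwise_of_maps_to (t := Finset.range B)
      (g := fun v : List Bool => v.length / (5 * s))
      (fun v hv => Finset.mem_range.mpr (Finset.mem_filter.mp hv).2)]
    have h2 : ∀ κ ∈ Finset.range B,
        ∑ v ∈ ((Bd s T).filter (fun v => v.length / (5 * s) < B)).filter
          (fun v => v.length / (5 * s) = κ),
          th s B ^ (v.length / (5 * s) - (v.length / (5 * s) - B)) ≤ 3 := by
      intro κ hκ
      have hκ' := Finset.mem_range.mp hκ
      have h3 : ∀ v ∈ ((Bd s T).filter (fun v => v.length / (5 * s) < B)).filter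
          (fun v => v.length / (5 * s) = κ),
          th s B ^ (v.length / (5 * s) - (v.length / (5 * s) - B)) = th s B ^ κ := by
        intro v hv
        have := (Finset.mem_filter.mp hv).2
        rw [this]
        congr 1
        omega
      rw [Finset.sum_congr rfl h3, Finset.sum_const, nsmul_eq_mul]
      refine le_trans ?_ (th_pow s B κ hB hκ'.le)
      apply mul_le_mul_of_nonneg_right _ (pow_nonneg (th_nonneg s B) _)
      have h4 := card_len (κ * (5 * s)) (((Bd s T).filter
        (fun v => v.length / (5 * s) < B)).filter (fun v => v.length / (5 * s) = κ)) (by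
          intro v hv
          obtain ⟨h5, h6⟩ := Finset.mem_filter.mp hv
          obtain ⟨h7, -⟩ := Finset.mem_filter.mp h5
          have h8 := (Finset.mem_filter.mp h7).2
          rw [← h6]
          exact (Nat.div_mul_cancel (Nat.dvd_of_mod_eq_zero h8)).symm)
      exact_mod_cast h4
    calc _ ≤ ∑ κ ∈ Finset.range B, (3 : ℝ) := Finset.sum_le_sum h2
      _ = 3 * B := by simp [mul_comm]
  have h2 : ∑ v ∈ (Bd s T).filter (fun v => ¬ v.length / (5 * s) < B),
      th s B ^ (v.length / (5 * s) - (v.length / (5 * s) - B)) ≤ 3 := by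
    have h3 : ∀ v ∈ (Bd s T).filter (fun v => ¬ v.length / (5 * s) < B),
        th s B ^ (v.length / (5 * s) - (v.length / (5 * s) - B)) = th s B ^ B := by
      intro v hv
      have := (Finset.mem_filter.mp hv).2
      congr 1
      omega
    rw [Finset.sum_congr rfl h3, Finset.sum_const, nsmul_eq_mul]
    refine le_trans ?_ (th_pow s B B hB le_rfl)
    apply mul_le_mul_of_nonneg_right _ (pow_nonneg (th_nonneg s B) _)
    have h4 : ((Bd s T).filter (fun v => ¬ v.length / (5 * s) < B)).card ≤ 2 ^ (B * (5 * s)) := by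
      calc _ ≤ T.card := Finset.card_le_card
            ((Finset.filter_subset _ _).trans (Finset.filter_subset _ _))
        _ ≤ 2 ^ n := hT
        _ ≤ 2 ^ (B * (5 * s)) := Nat.pow_le_pow_right (by norm_num) (by
            rw [mul_comm B]; exact hn)
    exact_mod_cast h4
  linarith

theorem sum_g (s B : ℕ) (hB : 0 < B) (T : Finset (List Bool)) (z : List Bool) (ν : ℕ)
    (hν : ν < B) : ∑ v ∈ Bd s T, g s B z ν v ≤ 3 * 2 ^ (5 * s) := by
  classical
  unfold g
  rw [← Finset.sum_filter, Finset.sum_const, nsmul_eq_mul]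
  have h1 : ((Bd s T).filter fun v => v.take z.length = z ∧
      v.length = z.length + (ν + 1) * (5 * s)).card ≤ 2 ^ ((ν + 1) * (5 * s)) :=
    card_ext z _ _ (fun v hv => (Finset.mem_filter.mp hv).2)
  have h2 := th_pow s B ν hB hν.le
  have h3 : (((Bd s T).filter fun v => v.take z.length = z ∧
      v.length = z.length + (ν + 1) * (5 * s)).card : ℝ) ≤ 2 ^ ((ν + 1) * (5 * s)) := by
    exact_mod_cast h1
  calc _ ≤ (2 : ℝ) ^ ((ν + 1) * (5 * s)) * th s B ^ ν :=
        mul_le_mul_of_nonneg_right h3 (pow_nonneg (th_nonneg s B) _)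
    _ = ((2 : ℝ) ^ (ν * (5 * s)) * th s B ^ ν) * 2 ^ (5 * s) := by
        rw [Nat.add_mul, pow_add, one_mul]; ring
    _ ≤ 3 * 2 ^ (5 * s) := mul_le_mul_of_nonneg_right h2 (by positivity)

end PA

theorem addOne : AddOne := by
  intro s B n hs hB hn T hT A
  classical
  calc ∑ v ∈ Bd s T, th s B ^ (U s B v \ A).card
      ≤ ∑ v ∈ Bd s T, (th s B ^ (v.length / (5 * s) - (v.length / (5 * s) - B)) +
        ∑ z ∈ A, ∑ ν ∈ Finset.range B, PA.g s B z ν v) :=
        Finset.sum_le_sum fun v hv =>
          PA.term_le s B hs hB A v (Finset.mem_filter.mp hv).2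
    _ = ∑ v ∈ Bd s T, th s B ^ (v.length / (5 * s) - (v.length / (5 * s) - B)) +
        ∑ z ∈ A, ∑ ν ∈ Finset.range B, ∑ v ∈ Bd s T, PA.g s B z ν v := by
        rw [Finset.sum_add_distrib, Finset.sum_comm]
        congr 1
        refine Finset.sum_congr rfl fun z _ => ?_
        rw [Finset.sum_comm]
    _ ≤ (3 * B + 3) + ∑ z ∈ A, ∑ ν ∈ Finset.range B, (3 * 2 ^ (5 * s) : ℝ) := by
        refine add_le_add (PA.sum_f0 s B n hs hB hn T hT) ?_
        refine Finset.sum_le_sum fun z _ => Finset.sum_le_sum fun ν hν => ?_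
        exact PA.sum_g s B hB T z ν (Finset.mem_range.mp hν)
    _ = 3 * B + 3 + A.card * (3 * B * 2 ^ (5 * s) : ℝ) := by
        simp only [Finset.sum_const, nsmul_eq_mul, Finset.card_range]
        ring

end Pool.Agent.Work.MP_bf01b2_co.Lg
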