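import Pool.Agent.Work.MP_bf01b2_co.Lg.Stmts

/-!
# MP_bf01b2_co, `n + O(log n)` : item PI
-/

set_option autoImplicit false

namespace Pool.Agent.Work.MP_bf01b2_co.Lg

open Finset

theorem pi_U_card (s B : ℕ) (v : List Bool) : (U s B v).card ≤ B := by
  unfold U
  refine Finset.card_image_le.trans ?_
  rw [Nat.card_Ico]
  omega

theorem pi_UU_card (s B : ℕ) {r : ℕ} (V : Fin r → List Bool) : (UU s B V).card ≤ r * B := by
  unfold UU
  refine Finset.card_biUnion_le.trans ?_
  refine (Finset.sum_le_card_nsmul _ _ B (fun i _ => pi_U_card s B (V i))).trans ?_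
  simp

theorem pi_UU_cons (s B : ℕ) {r : ℕ} (v : List Bool) (V : Fin r → List Bool) :
    UU s B (Fin.cons v V : Fin (r + 1) → List Bool) = U s B v ∪ UU s B V := by
  unfold UU
  ext y
  simp only [Finset.mem_biUnion, Finset.mem_univ, true_and, Finset.mem_union]
  constructor
  · rintro ⟨i, hi⟩
    refine Fin.cases (fun h => Or.inl ?_) (fun j h => Or.inr ⟨j, ?_⟩) i hi
    · simpa using h
    · simpa using h
  · rintro (h | ⟨j, h⟩)
    · exact ⟨0, by simpa using h⟩
    · exact ⟨j.succ, by simpa using h⟩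

theorem pi_sum (h : AddOne) (s B n : ℕ) (hs : 0 < s) (hB : 0 < B) (hn : n ≤ 5 * s * B)
    (T : Finset (List Bool)) (hT : T.card ≤ 2 ^ n) (θ : ℝ) (hθ0 : 0 ≤ θ) (hθ : θ = th s B) :
    ∀ r : ℕ, ∑ V ∈ Fintype.piFinset (fun _ : Fin r => Bd s T), θ ^ (UU s B V).card ≤
      ∏ i ∈ range r, (3 * (B : ℝ) + 3 + ((i * B : ℕ) : ℝ) * (3 * B * 2 ^ (5 * s) : ℝ)) := by
  intro r
  induction r with
  | zero =>
    rw [Finset.prod_range_zero]
    have h1 : ∀ V ∈ Fintype.piFinset (fun _ : Fin 0 => Bd s T), θ ^ (UU s B V).card = 1 := by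
      intro V _
      have : UU s B V = ∅ := by
        unfold UU
        simp
      rw [this, Finset.card_empty, pow_zero]
    rw [Finset.sum_congr rfl h1, Finset.sum_const, Fintype.card_piFinset]
    simp
  | succ r ih =>
    rw [Finset.prod_range_succ]
    have hsum : ∑ V ∈ Fintype.piFinset (fun _ : Fin (r + 1) => Bd s T), θ ^ (UU s B V).card =
        ∑ p ∈ (Fintype.piFinset (fun _ : Fin r => Bd s T)) ×ˢ (Bd s T),
          θ ^ (U s B p.2 \ UU s B p.1).card * θ ^ (UU s B p.1).card := by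
      symm
      refine Finset.sum_nbij' (fun p => (Fin.cons p.2 p.1 : Fin (r + 1) → List Bool))
        (fun V => (Fin.tail V, V 0)) ?_ ?_ ?_ ?_ ?_
      · rintro ⟨V, v⟩ hp
        rw [Finset.mem_product, Fintype.mem_piFinset] at hp
        rw [Fintype.mem_piFinset]
        intro i
        refine Fin.cases ?_ (fun j => ?_) i
        · simpa using hp.2
        · simpa using hp.1 j
      · intro V hV
        rw [Fintype.mem_piFinset] at hV
        rw [Finset.mem_product, Fintype.mem_piFinset]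
        exact ⟨fun i => hV i.succ, hV 0⟩
      · rintro ⟨V, v⟩ _
        simp
      · intro V _
        simp
      · rintro ⟨V, v⟩ _
        show θ ^ (U s B v \ UU s B V).card * θ ^ (UU s B V).card =
          θ ^ (UU s B (Fin.cons v V : Fin (r + 1) → List Bool)).card
        rw [pi_UU_cons, ← pow_add]
        congr 1
        rw [← Finset.card_sdiff_add_card]
    rw [hsum, Finset.sum_product]
    have hstep : ∀ V ∈ Fintype.piFinset (fun _ : Fin r => Bd s T),
        ∑ v ∈ Bd s T, θ ^ (U s B v \ UU s B V).card * θ ^ (UU s B V).card ≤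
        θ ^ (UU s B V).card * (3 * (B : ℝ) + 3 + ((r * B : ℕ) : ℝ) * (3 * B * 2 ^ (5 * s) : ℝ)) := by
      intro V _
      rw [← Finset.sum_mul, mul_comm]
      apply mul_le_mul_of_nonneg_left _ (pow_nonneg hθ0 _)
      have h1 := h s B n hs hB hn T hT (UU s B V)
      rw [← hθ] at h1
      refine h1.trans ?_
      have h2 : ((UU s B V).card : ℝ) ≤ ((r * B : ℕ) : ℝ) := by exact_mod_cast pi_UU_card s B V
      have h3 : (0 : ℝ) ≤ 3 * B * 2 ^ (5 * s) := by positivity
      have h4 := mul_le_mul_of_nonneg_right h2 h3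
      linarith
    refine (Finset.sum_le_sum hstep).trans ?_
    rw [← Finset.sum_mul]
    apply mul_le_mul_of_nonneg_right ih
    positivity

/-- Item PI -/
theorem phiInit (h : AddOne) : PhiInit := by
  intro s q B n hs hB hn T ω hT
  have hθ0 : 0 ≤ th s B := by unfold th; positivity
  have hterm : ∀ x ∈ (Finset.range B ×ˢ Finset.range (5 * s)).powerset,
      ∑ V ∈ Fintype.piFinset (fun _ : Fin (5 * s * B) => Bd s T),
        term B (th s B) ∅ ω x V ≤
      ∏ i ∈ range (5 * s * B),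
        (3 * (B : ℝ) + 3 + ((i * B : ℕ) : ℝ) * (3 * B * 2 ^ (5 * s) : ℝ)) := by
    intro x _
    refine le_trans (le_of_eq ?_) (pi_sum h s B n hs hB hn T hT (th s B) hθ0 rfl (5 * s * B))
    apply Finset.sum_congr rfl
    intro V _
    unfold term
    have h1 : ∀ y ∈ UU s B V, fac B (th s B) ∅ ω x V y = th s B := by
      intro y _
      unfold fac
      rw [if_neg (Finset.notMem_empty y)]
    rw [Finset.prod_congr rfl h1, Finset.prod_const]
  unfold Phi
  refine (Finset.sum_le_sum hterm).trans ?_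
  rw [Finset.sum_const, Finset.card_powerset, Finset.card_product, Finset.card_range,
    Finset.card_range, nsmul_eq_mul]
  set R : ℕ := 5 * s * B with hR
  have hR1 : 1 ≤ R := by
    rw [hR]
    exact Nat.succ_le_of_lt (by positivity)
  have hBR : B * (5 * s) = R := by rw [hR]; ring
  rw [hBR]
  have hBr : (1 : ℝ) ≤ B := by exact_mod_cast hB
  have hRr : (1 : ℝ) ≤ R := by exact_mod_cast hR1
  have h2s : (1 : ℝ) ≤ 2 ^ (5 * s) := one_le_pow₀ (by norm_num)
  have hprod : ∏ i ∈ range R, (3 * (B : ℝ) + 3 + ((i * B : ℕ) : ℝ) * (3 * B * 2 ^ (5 * s) : ℝ)) ≤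
      ∏ _i ∈ range R, (9 * (R : ℝ) * (B : ℝ) ^ 2 * 2 ^ (5 * s)) := by
    apply Finset.prod_le_prod
    · intro i _
      positivity
    · intro i hi
      rw [Finset.mem_range] at hi
      have hiR : (i : ℝ) + 1 ≤ R := by exact_mod_cast hi
      push_cast
      have hB2 : (B : ℝ) ≤ (B : ℝ) ^ 2 := by nlinarith
      have hB3 : (B : ℝ) ^ 2 ≤ (B : ℝ) ^ 2 * 2 ^ (5 * s) := by nlinarith [sq_nonneg (B : ℝ)]
      have hP : 0 ≤ (B : ℝ) ^ 2 * 2 ^ (5 * s) := by positivity
      have h1 : (i : ℝ) * B * (3 * B * 2 ^ (5 * s)) = 3 * i * ((B : ℝ) ^ 2 * 2 ^ (5 * s)) := by ring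
      have h2 : 9 * (R : ℝ) * (B : ℝ) ^ 2 * 2 ^ (5 * s) = 9 * R * ((B : ℝ) ^ 2 * 2 ^ (5 * s)) := by
        ring
      rw [h1, h2]
      have h3 : 3 * (i : ℝ) * ((B : ℝ) ^ 2 * 2 ^ (5 * s)) ≤
          3 * ((R : ℝ) - 1) * ((B : ℝ) ^ 2 * 2 ^ (5 * s)) := by
        apply mul_le_mul_of_nonneg_right _ hP
        linarith
      have h4 : (0 : ℝ) ≤ (R - 1) * ((B : ℝ) ^ 2 * 2 ^ (5 * s)) := mul_nonneg (by linarith) hP
      nlinarith
  rw [Finset.prod_const, Finset.card_range] at hprod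
  have hMM : (MM s B : ℝ) = 2 * (9 * (R : ℝ) * (B : ℝ) ^ 2 * 2 ^ (5 * s)) := by
    unfold MM
    rw [← hR]
    push_cast
    ring
  have h2R : ((2 ^ R : ℕ) : ℝ) = 2 ^ R := by norm_num
  rw [hMM, mul_pow, h2R]
  exact mul_le_mul_of_nonneg_left hprod (by positivity)

end Pool.Agent.Work.MP_bf01b2_co.Lg
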