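import Pool.Agent.Work.MP_bf01b2_co.Lg.Stmts

/-!
# MP_bf01b2_co, `n + O(log n)` : item PL, the potential bounds the load
-/

set_option autoImplicit false

namespace Pool.Agent.Work.MP_bf01b2_co.Lg

lemma pl_fac_nonneg {s q : ℕ} (B : ℕ) (θ : ℝ) (hθ : 0 ≤ θ) (D : Finset (List Bool))
    (ω : List Bool → Opt s q) (x : Finset (ℕ × ℕ)) {r : ℕ} (V : Fin r → List Bool)
    (y : List Bool) : 0 ≤ fac B θ D ω x V y := by
  unfold fac
  split_ifs
  · exact zero_le_one
  · exact le_rfl
  · exact hθ

lemma pl_term_nonneg {s q : ℕ} (B : ℕ) (θ : ℝ) (hθ : 0 ≤ θ) (D : Finset (List Bool))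
    (ω : List Bool → Opt s q) (x : Finset (ℕ × ℕ)) {r : ℕ} (V : Fin r → List Bool) :
    0 ≤ term B θ D ω x V :=
  Finset.prod_nonneg fun y _ => pl_fac_nonneg B θ hθ D ω x V y

/-- Members of `U`. -/
lemma pl_mem_U {s B : ℕ} (hs : 0 < s) {T : Finset (List Bool)} {v y : List Bool}
    (hv : v ∈ Bd s T) (hy : y ∈ U s B v) :
    ∃ κ t : ℕ, v.length = κ * (5 * s) ∧ t < κ ∧ κ ≤ t + B ∧ y = v.take (t * (5 * s)) ∧
      y.length / (5 * s) = t := by
  unfold Bd at hv
  rw [Finset.mem_filter] at hv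
  unfold U at hy
  rw [Finset.mem_image] at hy
  obtain ⟨t, ht, hty⟩ := hy
  rw [Finset.mem_Ico] at ht
  have h1 : v.length = v.length / (5 * s) * (5 * s) := by
    have := Nat.div_add_mod' v.length (5 * s)
    omega
  refine ⟨v.length / (5 * s), t, h1, ht.2, by omega, hty.symm, ?_⟩
  have h2 : t * (5 * s) ≤ v.length := by
    rw [h1]
    exact Nat.mul_le_mul_right _ ht.2.le
  rw [← hty, List.length_take, min_eq_left h2]
  exact Nat.mul_div_cancel _ (by omega)

theorem phiLoad : PhiLoad := by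
  classical
  intro s q B r M hs hB θ hθ T D ω hPhi F hF x hx
  by_contra hcard
  push Not at hcard
  let xh : Finset (ℕ × ℕ) :=
    (Finset.range B ×ˢ Finset.range (5 * s)).filter fun p => x p.1 p.2 = 1
  have hxh : xh ∈ (Finset.range B ×ˢ Finset.range (5 * s)).powerset := by
    rw [Finset.mem_powerset]
    exact Finset.filter_subset _ _
  have hone : ∀ V ∈ Fintype.piFinset (fun _ : Fin r => F), term B θ D ω xh V = 1 := by
    intro V hV
    rw [Fintype.mem_piFinset] at hV
    unfold term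
    apply Finset.prod_eq_one
    intro y hy
    unfold UU at hy
    rw [Finset.mem_biUnion] at hy
    obtain ⟨i, -, hyi⟩ := hy
    have hyD : y ∈ D := by
      obtain ⟨κ, t, h1, h2, -, h4, -⟩ := pl_mem_U hs (hF (hV i)) hyi
      rw [h4]
      apply (hx _ (hV i)).1 t
      rw [h1]
      exact Nat.mul_lt_mul_of_pos_right h2 (by omega)
    unfold fac
    rw [if_pos hyD, if_pos]
    intro i' hyi'
    obtain ⟨κ, t, h1, h2, h3, h4, h5⟩ := pl_mem_U hs (hF (hV i')) hyi'
    rw [h5]
    intro j hj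
    rw [← P_window hs hB ω (V i') κ t j h1 h2 h3,
      (hx _ (hV i')).2 (t % B) (Nat.mod_lt _ hB) j hj]
    have h01 : ∀ a : ZMod 2, a = 0 ∨ a = 1 := by decide
    by_cases hmem : (t % B, j) ∈ xh
    · rw [if_pos hmem]
      exact (Finset.mem_filter.1 hmem).2
    · rw [if_neg hmem]
      rcases h01 (x (t % B) j) with h | h
      · exact h
      · exfalso
        apply hmem
        rw [Finset.mem_filter, Finset.mem_product, Finset.mem_range, Finset.mem_range]
        exact ⟨⟨Nat.mod_lt _ hB, hj⟩, h⟩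
  have h1 : ((M : ℝ) + 1) ^ r ≤ Phi B r θ T D ω := by
    unfold Phi
    calc ((M : ℝ) + 1) ^ r ≤ ((F.card : ℕ) : ℝ) ^ r := by
          apply pow_le_pow_left₀ (by positivity)
          exact_mod_cast hcard
      _ = ∑ V ∈ Fintype.piFinset (fun _ : Fin r => F), term B θ D ω xh V := by
          rw [Finset.sum_congr rfl hone, Finset.sum_const, nsmul_eq_mul, mul_one,
            Fintype.card_piFinset]
          simp
      _ ≤ ∑ V ∈ Fintype.piFinset (fun _ : Fin r => Bd s T), term B θ D ω xh V := by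
          apply Finset.sum_le_sum_of_subset_of_nonneg
          · exact Fintype.piFinset_subset _ _ fun _ => hF
          · intro V _ _
            exact pl_term_nonneg B θ hθ D ω xh V
      _ ≤ _ := Finset.single_le_sum
          (f := fun x => ∑ V ∈ Fintype.piFinset (fun _ : Fin r => Bd s T), term B θ D ω x V)
          (fun x _ => Finset.sum_nonneg fun V _ => pl_term_nonneg B θ hθ D ω x V) hxh
  exact absurd h1 (not_le.2 hPhi)

end Pool.Agent.Work.MP_bf01b2_co.Lg
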