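import Pool.Agent.Work.MP_bf01b2_co.Lg.Stmts

/-!
# MP_bf01b2_co, item PS: some good option does not increase the potential
-/

set_option autoImplicit false

namespace Pool.Agent.Work.MP_bf01b2_co.Lg

variable {s q B : ℕ}

lemma ps_fac_nonneg {θ : ℝ} (hθ : 0 ≤ θ) (D : Finset (List Bool))
    (ω : List Bool → Opt s q) (x : Finset (ℕ × ℕ)) {r : ℕ} (V : Fin r → List Bool)
    (y : List Bool) : 0 ≤ fac B θ D ω x V y := by
  unfold fac
  split_ifs <;> first | exact zero_le_one | exact le_rfl | exact hθ

lemma ps_mem_U (hs : 0 < s) (v y : List Bool) (hy : y ∈ U s B v) :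
    ∃ t, v.take (t * (5 * s)) = y ∧ y.length = t * (5 * s) ∧ (t + 1) * (5 * s) ≤ v.length ∧
      y.length / (5 * s) = t := by
  unfold U at hy
  rw [Finset.mem_image] at hy
  obtain ⟨t, ht, hty⟩ := hy
  rw [Finset.mem_Ico] at ht
  have h1 : (t + 1) * (5 * s) ≤ v.length :=
    (Nat.mul_le_mul_right _ ht.2).trans (Nat.div_mul_le_self _ _)
  have h2 : y.length = t * (5 * s) := by
    rw [← hty, List.length_take]
    rw [add_mul, one_mul] at h1
    omega
  refine ⟨t, hty, h2, h1, ?_⟩
  rw [h2]
  exact Nat.mul_div_cancel _ (by omega)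

/-- Factors not at `w` do not change. -/
lemma ps_fac_update (hs : 0 < s) {θ : ℝ} (D : Finset (List Bool))
    (ω : List Bool → Opt s q) (w : List Bool) (k : ℕ) (hk : w.length = k * (5 * s))
    (hD : ∀ w' ∈ D, w'.length ≤ k * (5 * s))
    (o : Opt s q) (x : Finset (ℕ × ℕ)) {r : ℕ} (V : Fin r → List Bool) (y : List Bool)
    (hne : y ≠ w) :
    fac B θ (insert w D) (Function.update ω w o) x V y = fac B θ D ω x V y := by
  classical
  unfold fac
  by_cases hin : y ∈ D
  · rw [if_pos (Finset.mem_insert_of_mem hin), if_pos hin]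
    have hMt : ∀ i, y ∈ U s B (V i) →
        (Mt B (Function.update ω w o) x (V i) (y.length / (5 * s)) ↔
          Mt B ω x (V i) (y.length / (5 * s))) := by
      intro i hi
      obtain ⟨t, hty, hlen, hle, hdiv⟩ := ps_mem_U hs (V i) y hi
      rw [hdiv]
      have hP : ∀ c, P B (Function.update ω w o) ((V i).take ((t + 1) * (5 * s))) c =
          P B ω ((V i).take ((t + 1) * (5 * s))) c := by
        intro c
        apply P_congr
        intro t' ht'
        rw [List.length_take, min_eq_left hle] at ht'
        rw [Function.update_of_ne]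
        intro h
        rw [List.take_take, min_eq_left ht'.le] at h
        have hl : t' * (5 * s) = k * (5 * s) := by
          rw [← hk, ← h, List.length_take]; omega
        have hk' : t' = k := Nat.eq_of_mul_eq_mul_right (by omega) hl
        subst hk'
        have ht2 : t' ≤ t := Nat.lt_succ_iff.1 (Nat.lt_of_mul_lt_mul_right ht')
        have hDl := hD _ hin
        rw [hlen] at hDl
        have ht3 : t ≤ t' := Nat.le_of_mul_le_mul_right hDl (by omega)
        have : t' = t := by omega
        subst this
        exact hne (hty.symm.trans h)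
      unfold Mt
      simp only [hP]
    by_cases hm : ∀ i, y ∈ U s B (V i) → Mt B ω x (V i) (y.length / (5 * s))
    · rw [if_pos hm, if_pos (fun i hi => (hMt i hi).2 (hm i hi))]
    · rw [if_neg hm, if_neg (fun h => hm fun i hi => (hMt i hi).1 (h i hi))]
  · rw [if_neg hin, if_neg]
    intro h
    rcases Finset.mem_insert.1 h with h | h
    · exact hne h
    · exact hin h

/-- Averaging over the good options does not increase a term. -/
lemma ps_term_step (hMC : MatchCount) (hs : 0 < s) (hB : 0 < B) (hq : 0 < q) {θ : ℝ} (hθ : 0 ≤ θ)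
    (D : Finset (List Bool))
    (ω : List Bool → Opt s q) (w : List Bool) (k : ℕ) (hk : w.length = k * (5 * s))
    (hwD : w ∉ D) (hD : ∀ w' ∈ D, w'.length ≤ k * (5 * s)) {r : ℕ} (x : Finset (ℕ × ℕ))
    (V : Fin r → List Bool) (G : Finset (Opt s q))
    (hG : (((5 * s).factorial * q ^ (2 * s) : ℕ) : ℝ) ≤ θ * G.card) :
    ∑ o ∈ G, term B θ (insert w D) (Function.update ω w o) x V ≤
      G.card * term B θ D ω x V := by
  classical
  by_cases hw : w ∈ UU s B V
  · have hw' := hw
    unfold UU at hw'
    rw [Finset.mem_biUnion] at hw'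
    obtain ⟨i, _, hi⟩ := hw'
    obtain ⟨t, hty, hlen, hle, hdiv⟩ := ps_mem_U hs (V i) w hi
    have htk : t = k := Nat.eq_of_mul_eq_mul_right (by omega : 0 < 5 * s) (hlen.symm.trans hk)
    subst htk
    set rest : ℝ := ∏ y ∈ (UU s B V).erase w, fac B θ D ω x V y with hrest
    have hrest0 : 0 ≤ rest := Finset.prod_nonneg fun p _ => ps_fac_nonneg hθ _ _ _ _ _
    have hold : term B θ D ω x V = θ * rest := by
      unfold term
      rw [← Finset.mul_prod_erase _ _ hw]
      congr 1
      unfold fac
      rw [if_neg hwD]
    have hnew : ∀ o, term B θ (insert w D) (Function.update ω w o) x V ≤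
        (if Mt B (Function.update ω w o) x (V i) t then 1 else 0) * rest := by
      intro o
      unfold term
      rw [← Finset.mul_prod_erase _ _ hw]
      have h1 : ∏ y ∈ (UU s B V).erase w, fac B θ (insert w D) (Function.update ω w o) x V y =
          rest := by
        apply Finset.prod_congr rfl
        intro y hy
        exact ps_fac_update hs D ω w t hk hD o x V y (Finset.mem_erase.1 hy).1
      rw [h1]
      apply mul_le_mul_of_nonneg_right _ hrest0
      unfold fac
      rw [if_pos (Finset.mem_insert_self _ _), hdiv]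
      by_cases hall : ∀ j, w ∈ U s B (V j) → Mt B (Function.update ω w o) x (V j) t
      · rw [if_pos hall, if_pos (hall i hi)]
      · rw [if_neg hall]
        split_ifs <;> norm_num
    refine (Finset.sum_le_sum fun o _ => hnew o).trans ?_
    rw [← Finset.sum_mul, hold, ← mul_assoc]
    apply mul_le_mul_of_nonneg_right _ hrest0
    rw [← Finset.sum_filter, Finset.sum_const, nsmul_eq_mul, mul_one, mul_comm]
    refine le_trans ?_ hG
    have hm := hMC s q B hs hB hq ω t x (V i) hle
      (G.filter fun o => Mt B (Function.update ω w o) x (V i) t)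
      (fun o ho => by rw [hty]; exact (Finset.mem_filter.1 ho).2)
    exact_mod_cast hm
  · have : ∀ o, term B θ (insert w D) (Function.update ω w o) x V = term B θ D ω x V := by
      intro o
      unfold term
      apply Finset.prod_congr rfl
      intro y hy
      refine ps_fac_update hs D ω w k hk hD o x V y ?_
      rintro rfl
      exact hw hy
    simp only [this]
    rw [Finset.sum_const, nsmul_eq_mul]

/-- Item PS. -/
theorem phiStep (h : MatchCount) : PhiStep := by
  classical
  intro s q B r hs hB hq θ hθ T D ω w k hk hwD hD G hG0 hG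
  apply Finset.exists_le_of_sum_le hG0
  rw [Finset.sum_const, nsmul_eq_mul]
  unfold Phi
  rw [Finset.sum_comm, Finset.mul_sum]
  apply Finset.sum_le_sum
  intro x _
  rw [Finset.sum_comm, Finset.mul_sum]
  apply Finset.sum_le_sum
  intro V _
  exact ps_term_step h hs (by omega) hq hθ D ω w k hk hwD hD x V G hG

end Pool.Agent.Work.MP_bf01b2_co.Lg
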