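import Pool.Agent.Work.MP_bf01b2_co.Lg.Stmts

/-!
# MP_bf01b2_co, `n + O(log n)` : positions inside a piece are distinct
-/

set_option autoImplicit false

namespace Pool.Agent.Work.MP_bf01b2_co.Lg

variable {s q B : ℕ}

lemma sp_add_ite_ne (a : ZMod 2) (p r : Prop) [Decidable p] [Decidable r] (h : ¬ (p ↔ r)) :
    a + (if p then 1 else 0) ≠ a + (if r then 1 else 0) := by
  intro he
  have h2 := add_left_cancel he
  by_cases hp : p <;> by_cases hr : r <;> simp [hp, hr] at h h2

lemma sp_co_inj (k i i' : ℕ) (hi : i < 5 * s) (hi' : i' < 5 * s) (o : Opt s q) (x : ℕ → Bool)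
    (h : co B k i o x = co B k i' o x) : i = i' := by
  unfold co at h
  split_ifs at h with h1 h2 h3 h4 h5 h6 h7
  · rw [Co.real.injEq] at h
    exact fidx_inj x i i' (pv_inj _ _ _ (fidx_lt x i (by omega)) (fidx_lt x i' (by omega)) h.2)
  · rw [Co.tr.injEq] at h
    exact h.1
  · rw [Co.psi.injEq] at h
    omega

lemma sp_key : ∀ (a b c a' b' c' : Bool) (n1 n2 : Fin 4) (p0 : Fin 3), p0.1 < n1.1 →
    p0.1 < n2.1 → (![a, b, c] p0 ≠ ![a', b', c'] p0) →
    (∀ p : Fin 3, p.1 < p0.1 → ![a, b, c] p = ![a', b', c'] p) →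
    (Finset.range n1.1).image (fun p => tab a b c p) ≠
      (Finset.range n2.1).image (fun p => tab a' b' c' p) := by
  decide +kernel

/-- membership in the window, block by block -/
lemma sp_mem (o : Opt s q) (x : ℕ → Bool) (m b p' : ℕ) (hb : b < s) (hp' : p' < 5) :
    pv o.2.1 (5 * b + p') ∈ wset o x m ↔
      p' ∈ (Finset.range (min 3 (min m o.1.1.card - 3 * b))).image
        (fun p => tab (x (3 * b)) (x (3 * b + 1)) (x (3 * b + 2)) p) := by
  have hJ : o.1.1.card ≤ 3 * s := o.1.2
  unfold wset
  rw [Finset.mem_image, Finset.mem_image]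
  constructor
  · rintro ⟨i, hi, hij⟩
    rw [Finset.mem_range] at hi
    have h1 := pv_inj _ _ _ (fidx_lt x i (by omega)) (by omega) hij
    have h2 := tab_lt (x (3 * (i / 3))) (x (3 * (i / 3) + 1)) (x (3 * (i / 3) + 2)) (i % 3)
    unfold fidx at h1
    have h3 : i / 3 = b := by omega
    rw [h3] at h1
    refine ⟨i % 3, ?_, ?_⟩
    · rw [Finset.mem_range]
      omega
    · omega
  · rintro ⟨p, hp, hpp⟩
    rw [Finset.mem_range] at hp
    refine ⟨3 * b + p, ?_, ?_⟩
    · rw [Finset.mem_range]
      omega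
    · unfold fidx
      have h3 : (3 * b + p) / 3 = b := by omega
      have h4 : (3 * b + p) % 3 = p := by omega
      rw [h3, h4, hpp]

/-- first difference among the real levels -/
lemma sp_real (o : Opt s q) (x y : ℕ → Bool) (m m' i0 : ℕ) (h0 : i0 < m) (h0' : i0 < m')
    (hJ0 : i0 < o.1.1.card) (hlt : ∀ j < i0, x j = y j) (hne : x i0 ≠ y i0) :
    wset o x m ≠ wset o y m' := by
  intro he
  have hJ : o.1.1.card ≤ 3 * s := o.1.2
  have hb : i0 / 3 < s := by omega
  refine sp_key (x (3 * (i0 / 3))) (x (3 * (i0 / 3) + 1)) (x (3 * (i0 / 3) + 2))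
    (y (3 * (i0 / 3))) (y (3 * (i0 / 3) + 1)) (y (3 * (i0 / 3) + 2))
    ⟨min 3 (min m o.1.1.card - 3 * (i0 / 3)), by omega⟩
    ⟨min 3 (min m' o.1.1.card - 3 * (i0 / 3)), by omega⟩
    ⟨i0 % 3, Nat.mod_lt _ (by norm_num)⟩ ?_ ?_ ?_ ?_ ?_
  · simp only
    omega
  · simp only
    omega
  · rcases (show i0 % 3 = 0 ∨ i0 % 3 = 1 ∨ i0 % 3 = 2 by omega) with h1 | h1 | h1
    · have h2 : 3 * (i0 / 3) = i0 := by omega
      simp only [h1, h2]
      exact hne
    · have h2 : 3 * (i0 / 3) + 1 = i0 := by omega
      simp only [h1, h2]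
      exact hne
    · have h2 : 3 * (i0 / 3) + 2 = i0 := by omega
      simp only [h1, h2]
      exact hne
  · intro p hp
    simp only at hp
    fin_cases p
    · exact hlt _ (by simp only at hp; omega)
    · exact hlt _ (by simp only at hp; omega)
    · exact hlt _ (by simp only at hp; omega)
  · ext p'
    by_cases hp' : p' < 5
    · rw [← sp_mem o x m (i0 / 3) p' hb hp', ← sp_mem o y m' (i0 / 3) p' hb hp', he]
    · constructor
      · intro h
        obtain ⟨p, -, hp⟩ := Finset.mem_image.1 h
        exact absurd (hp ▸ tab_lt _ _ _ _) hp'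
      · intro h
        obtain ⟨p, -, hp⟩ := Finset.mem_image.1 h
        exact absurd (hp ▸ tab_lt _ _ _ _) hp'

/-- a proper prefix inside the piece -/
lemma sp_prefix (hs : 0 < s) (ω : List Bool → Opt s q) (k : ℕ) (u v : List Bool)
    (hu : k * (5 * s) ≤ u.length) (hu' : u.length ≤ (k + 1) * (5 * s))
    (hv : k * (5 * s) ≤ v.length) (hv' : v.length ≤ (k + 1) * (5 * s))
    (htk : u.take (k * (5 * s)) = v.take (k * (5 * s))) (hlt : u.length < v.length)
    (hxy : ∀ i < u.length - k * (5 * s), bits s k u i = bits s k v i) :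
    ∃ c, P B ω u c ≠ P B ω v c := by
  have hk1 : (k + 1) * (5 * s) = k * (5 * s) + 5 * s := by ring
  set mu := u.length - k * (5 * s) with hmu
  refine ⟨co B k mu (ω (v.take (k * (5 * s)))) (bits s k v), ?_⟩
  rw [P_slab hs ω u k hu hu', P_slab hs ω v k hv hv', htk]
  have h1 : (∑ i ∈ Finset.range (u.length - k * (5 * s)),
      if co B k i (ω (v.take (k * (5 * s)))) (bits s k u) =
        co B k mu (ω (v.take (k * (5 * s)))) (bits s k v) then (1 : ZMod 2) else 0) = 0 := by
    apply Finset.sum_eq_zero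
    intro i hi
    rw [Finset.mem_range] at hi
    rw [if_neg]
    rw [co_congr k i (by omega) _ (bits s k u) (bits s k v) (fun j hj => hxy j (by omega))]
    intro h
    have := sp_co_inj k i mu (by omega) (by omega) _ _ h
    omega
  have h2 : (∑ i ∈ Finset.range (v.length - k * (5 * s)),
      if co B k i (ω (v.take (k * (5 * s)))) (bits s k v) =
        co B k mu (ω (v.take (k * (5 * s)))) (bits s k v) then (1 : ZMod 2) else 0) = 1 := by
    rw [Finset.sum_eq_single mu]
    · rw [if_pos rfl]
    · intro i hi hne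
      rw [Finset.mem_range] at hi
      rw [if_neg]
      intro h
      exact hne (sp_co_inj k i mu (by omega) (by omega) _ _ h)
    · intro hn
      exfalso
      apply hn
      rw [Finset.mem_range]
      omega
  rw [h1, h2]
  intro h
  have h3 := add_left_cancel h
  exact zero_ne_one h3

lemma sp_pval (hs : 0 < s) (hq : 16 ≤ q) (o : Opt s q) (x y : ℕ → Bool) (l : ℕ) (hl : l < 2 * s)
    (hlt : ∀ j < 3 * s + l, x j = y j) (hne : x (3 * s + l) ≠ y (3 * s + l)) :
    pval o x l ≠ pval o y l := by
  unfold pval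
  have h1 : dig x l = dig y l := by
    unfold dig
    rw [hlt (2 * l) (by omega), hlt (2 * l + 1) (by omega)]
  rw [h1]
  have h2 : dig y l < 4 := by
    unfold dig
    cases y (2 * l) <;> cases y (2 * l + 1) <;> simp
  intro h
  have h3 : 4 * dig y l + (x (3 * s + l)).toNat ≡ 4 * dig y l + (y (3 * s + l)).toNat [MOD q] :=
    Nat.ModEq.add_left_cancel' _ h
  have h4 := Nat.ModEq.eq_of_lt_of_lt h3
    (by cases x (3 * s + l) <;> simp <;> omega) (by cases y (3 * s + l) <;> simp <;> omega)
  apply hne
  cases hx : x (3 * s + l) <;> cases hy : y (3 * s + l) <;> simp [hx, hy] at h4 ⊢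

theorem samePiece : SamePiece := by
  intro s q B hs hB hq ω k u v hu hu' hv hv' htk huv
  have hk1 : (k + 1) * (5 * s) = k * (5 * s) + 5 * s := by ring
  by_cases hex : ∃ i, i < u.length - k * (5 * s) ∧ i < v.length - k * (5 * s) ∧
      bits s k u i ≠ bits s k v i
  · classical
    obtain ⟨hi1, hi2, hi3⟩ := Nat.find_spec hex
    have hmin := fun j hj => Nat.find_min hex (m := j) hj
    set i0 := Nat.find hex with hi0
    have hlt : ∀ j < i0, bits s k u j = bits s k v j := by
      intro j hj
      by_contra hne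
      exact hmin j hj ⟨by omega, by omega, hne⟩
    by_cases h3 : i0 < 3 * s
    · by_cases hJ : (ω (v.take (k * (5 * s)))).1.1.card ≤ i0
      · refine ⟨Co.tr i0 (bits s k u i0), ?_⟩
        rw [P_tr hs ω u k i0 _ hu hu', P_tr hs ω v k i0 _ hv hv', htk]
        apply sp_add_ite_ne
        intro h
        exact hi3 ((h.1 ⟨hi1, h3, hJ, rfl⟩).2.2.2).symm
      · push Not at hJ
        have hw := sp_real (ω (v.take (k * (5 * s)))) (bits s k u) (bits s k v) _ _ i0 hi1 hi2 hJ
          hlt hi3
        have : ∃ j, ¬ (j ∈ wset (ω (v.take (k * (5 * s)))) (bits s k u)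
            (u.length - k * (5 * s)) ↔ j ∈ wset (ω (v.take (k * (5 * s)))) (bits s k v)
            (v.length - k * (5 * s))) := by
          by_contra hcon
          push Not at hcon
          exact hw (Finset.ext hcon)
        obtain ⟨j, hj⟩ := this
        refine ⟨Co.real (k % B) j, ?_⟩
        rw [P_real hs ω u k j hu hu', P_real hs ω v k j hv hv', htk]
        exact sp_add_ite_ne _ _ _ hj
    · push Not at h3
      have hl : 3 * s + (i0 - 3 * s) = i0 := by omega
      have hpv := sp_pval hs hq (ω (v.take (k * (5 * s)))) (bits s k u) (bits s k v)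
        (i0 - 3 * s) (by omega) (by rw [hl]; exact hlt) (by rw [hl]; exact hi3)
      refine ⟨Co.psi (k % 2) (i0 - 3 * s)
        (pval (ω (v.take (k * (5 * s)))) (bits s k u) (i0 - 3 * s)), ?_⟩
      rw [P_psi hs ω u k _ _ hu hu' (by omega) (by omega),
        P_psi hs ω v k _ _ hv hv' (by omega) (by omega), htk]
      apply sp_add_ite_ne
      intro h
      exact hpv (h.1 rfl).symm
  · push Not at hex
    rcases lt_trichotomy u.length v.length with hlt | heq | hgt
    · exact sp_prefix hs ω k u v hu hu' hv hv' htk hlt (fun i hi => hex i hi (by omega))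
    · exfalso
      apply huv
      apply List.ext_getElem heq
      intro n h1 h2
      by_cases hn : n < k * (5 * s)
      · have h3 : (u.take (k * (5 * s))).getD n false = (v.take (k * (5 * s))).getD n false := by
          rw [htk]
        rw [getD_take _ _ _ hn, getD_take _ _ _ hn, List.getD_eq_getElem _ _ h1,
          List.getD_eq_getElem _ _ h2] at h3
        exact h3
      · have h3 := hex (n - k * (5 * s)) (by omega) (by omega)
        unfold bits at h3
        have h4 : k * (5 * s) + (n - k * (5 * s)) = n := by omega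
        rw [h4, List.getD_eq_getElem _ _ h1, List.getD_eq_getElem _ _ h2] at h3
        exact h3
    · obtain ⟨c, hc⟩ := sp_prefix (B := B) hs ω k v u hv hv' hu hu' htk.symm hgt
        (fun i hi => (hex i (by omega) hi).symm)
      exact ⟨c, hc.symm⟩

end Pool.Agent.Work.MP_bf01b2_co.Lg
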