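import Pool.Agent.Work.MP_bf01b2_co.Lg.Stmts

/-!
# MP_bf01b2_co, `n + O(log n)` : item ST
-/

set_option autoImplicit false

namespace Pool.Agent.Work.MP_bf01b2_co.Lg

namespace STAux

variable {s q B : ℕ}

lemma mod_two_ne (k : ℕ) : k % 2 ≠ (k + 1) % 2 := by omega

/-- The position of a new vertex outside the coordinates of the slab. -/
lemma new_out (hs : 0 < s) (ω : List Bool → Opt s q) (w : List Bool) (k : ℕ) (o : Opt s q)
    (x : List Bool) (h1 : k * (5 * s) < x.length) (h2 : x.length ≤ (k + 1) * (5 * s))
    (h3 : x.take (k * (5 * s)) = w) (c : Co) (hc : XX B k c) :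
    P B (Function.update ω w o) x c = P B ω w c := by
  rw [P_out hs _ x k c h1.le h2 hc, h3, P_update_self]

lemma new_lt (hs : 0 < s) (ω : List Bool → Opt s q) (w : List Bool) (k : ℕ) (o : Opt s q)
    (x : List Bool) (h1 : k * (5 * s) < x.length) (h2 : x.length ≤ (k + 1) * (5 * s))
    (h3 : x.take (k * (5 * s)) = w) (g l a : ℕ) (h4 : x.length ≤ k * (5 * s) + (3 * s + l)) :
    P B (Function.update ω w o) x (Co.psi g l a) = P B ω w (Co.psi g l a) := by
  rw [P_psi_lt hs _ x k g l a h1.le h2 h4, h3, P_update_self]

lemma new_psi (hs : 0 < s) (ω : List Bool → Opt s q) (w : List Bool) (k : ℕ) (o : Opt s q)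
    (x : List Bool) (h1 : k * (5 * s) < x.length) (h2 : x.length ≤ (k + 1) * (5 * s))
    (h3 : x.take (k * (5 * s)) = w) (l a : ℕ) (hl : l < 2 * s)
    (h4 : k * (5 * s) + (3 * s + l) < x.length) :
    P B (Function.update ω w o) x (Co.psi (k % 2) l a) = P B ω w (Co.psi (k % 2) l a) +
      if pval o (bits s k x) l = a then 1 else 0 := by
  rw [P_psi hs _ x k l a h1.le h2 hl h4, h3, P_update_self, Function.update_self]

end STAux

open STAux in
/-- Item ST: a good option preserves the invariants. -/
theorem stepInv (hEX : ExitPsi) : StepInv := by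
  intro s q B hs hB hq T D ω w k hT hwT hk hwD hwP hD hI1 hI2 o hgood
  have h5 : 0 < 5 * s := by omega
  have hH : (k + 1) * (5 * s) = k * (5 * s) + 5 * s := by ring
  have hm2 := mod_two_ne k
  constructor
  · intro k' u hu hul hup v hv hvl hvp hne
    rcases placed_cases hs D w k hk hD u hup with hu1 | ⟨hu1, hu2, hu3⟩
    · rcases placed_cases hs D w k hk hD v hvp with hv1 | ⟨hv1, hv2, hv3⟩
      · -- both old
        obtain ⟨c, hc1, hc2⟩ := hI1 k' u hu hul hu1 v hv hvl hv1 hne
        refine ⟨c, hc1, ?_⟩
        rw [P_update_old D ω w hwD o u hu1, P_update_old D ω w hwD o v hv1]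
        exact hc2
      · -- u old, v new
        have hk1 : k < k' := by
          by_contra hn
          have : k' * (5 * s) ≤ k * (5 * s) := Nat.mul_le_mul_right _ (by omega)
          omega
        have hk2 : k' ≤ k + 1 := by
          have := length_of_placed hs D w k hk hD u hup
          rw [hul] at this
          exact Nat.le_of_mul_le_mul_right this h5
        have hkk : k' = k + 1 := by omega
        subst hkk
        by_cases hshort : v.length ≤ k * (5 * s) + (3 * s + s)
        · obtain ⟨c, hc1, hc2⟩ := hI2 k u hu hul hu1 w hwT hk hwP hwD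
          refine ⟨c, ?_, ?_⟩
          · cases c with
            | real b j => exact hc1.2
            | tr j e => exact hc1
            | psi g l a =>
              obtain ⟨hg, _⟩ := hc1
              change g ≠ (k + 1) % 2
              rw [hg]
              exact hm2
          · rw [P_update_old D ω w hwD o u hu1]
            cases c with
            | real b j =>
              rw [new_out hs ω w k o v hv1 hv2 hv3 (Co.real b j) hc1.1]
              exact hc2
            | tr j e => exact hc1.elim
            | psi g l a =>
              obtain ⟨_, hl⟩ := hc1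
              rw [new_lt hs ω w k o v hv1 hv2 hv3 g l a (by omega)]
              exact hc2
        · by_contra hcon
          push Not at hcon
          have hin : ∀ c : Co, XX B (k + 1) c → P B ω u c =
              P B (Function.update ω w o) v c := by
            intro c hc
            rw [← hcon c hc, P_update_old D ω w hwD o u hu1]
          apply hgood
          refine ⟨u, hu, hu1, ?_, v, hv, hv1.le, hv2, hv3, Or.inl ?_⟩
          · intro b j hb1 hb2
            rw [hin (Co.real b j) hb2, new_out hs ω w k o v hv1 hv2 hv3 (Co.real b j) hb1]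
          · intro l _ hl a _
            rw [hin (Co.psi (k % 2) l a) hm2,
              new_psi hs ω w k o v hv1 hv2 hv3 l a (by omega) (by omega)]
    · -- u new
      have hkk : k' = k + 1 := by
        rw [hul] at hu1 hu2
        have h1 : k < k' := Nat.lt_of_mul_lt_mul_right hu1
        have h2 : k' ≤ k + 1 := Nat.le_of_mul_le_mul_right hu2 h5
        omega
      subst hkk
      rcases placed_cases hs D w k hk hD v hvp with hv1 | ⟨hv1, hv2, hv3⟩
      · -- v old
        by_contra hcon
        push Not at hcon
        have hin : ∀ c : Co, XX B (k + 1) c → P B ω v c =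
            P B (Function.update ω w o) u c := by
          intro c hc
          rw [hcon c hc, P_update_old D ω w hwD o v hv1]
        apply hgood
        refine ⟨v, hv, hv1, ?_, u, hu, hu1.le, hu2, hu3, Or.inl ?_⟩
        · intro b j hb1 hb2
          rw [hin (Co.real b j) hb2, new_out hs ω w k o u hu1 hu2 hu3 (Co.real b j) hb1]
        · intro l _ hl a _
          rw [hin (Co.psi (k % 2) l a) hm2,
            new_psi hs ω w k o u hu1 hu2 hu3 l a (by omega) (by omega)]
      · -- both new
        obtain ⟨l, a, h⟩ := hEX s q B hs (by omega) hq (Function.update ω w o) k u v hul hv1.le hv2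
          (by rw [hu3, hv3]) (Ne.symm hne)
        exact ⟨Co.psi (k % 2) l a, hm2, h⟩
  · intro k' u hu hul hup v hv hvl hvp hvD
    have hvD' : v ∉ D := fun h => hvD (Finset.mem_insert_of_mem h)
    rcases placed_cases hs D w k hk hD u hup with hu1 | ⟨hu1, hu2, hu3⟩
    · rcases placed_cases hs D w k hk hD v hvp with hv1 | ⟨hv1, hv2, hv3⟩
      · -- both old
        obtain ⟨c, hc1, hc2⟩ := hI2 k' u hu hul hu1 v hv hvl hv1 hvD'
        refine ⟨c, hc1, ?_⟩
        rw [P_update_old D ω w hwD o u hu1, P_update_old D ω w hwD o v hv1]
        exact hc2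
      · -- u old, v new : impossible
        exfalso
        have h1 := length_of_placed hs D w k hk hD u hup
        rw [hul] at h1
        rw [hvl] at hv1
        have h2 : k < k' := Nat.lt_of_mul_lt_mul_right hv1
        have h3 : k' + 1 ≤ k + 1 := Nat.le_of_mul_le_mul_right h1 h5
        omega
    · -- u new
      have hkk : k' = k := by
        rw [hul] at hu1 hu2
        have h1 : k < k' + 1 := Nat.lt_of_mul_lt_mul_right hu1
        have h2 : k' + 1 ≤ k + 1 := Nat.le_of_mul_le_mul_right hu2 h5
        omega
      subst hkk
      rcases placed_cases hs D w k' hk hD v hvp with hv1 | ⟨hv1, hv2, hv3⟩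
      · by_contra hcon
        push Not at hcon
        have hin : ∀ c : Co, ZZ s B k' c → P B ω v c =
            P B (Function.update ω w o) u c := by
          intro c hc
          rw [hcon c hc, P_update_old D ω w hwD o v hv1]
        apply hgood
        refine ⟨v, hv, hv1, ?_, u, hu, hu1.le, hu2, hu3, Or.inr ?_⟩
        · intro b j hb1 hb2
          rw [hin (Co.real b j) ⟨hb1, hb2⟩, new_out hs ω w k' o u hu1 hu2 hu3 (Co.real b j) hb1]
        · intro l hl1 hl a _
          rw [hin (Co.psi (k' % 2) l a) ⟨rfl, hl1⟩,
            new_psi hs ω w k' o u hu1 hu2 hu3 l a (by omega) (by omega)]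
      · exfalso
        omega

end Pool.Agent.Work.MP_bf01b2_co.Lg
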