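import Pool.Agent.Work.MP_bf01b2_co.Lg.Basic

/-!
# MP_bf01b2_co, `n + O(log n)` : statements of the items
-/

set_option autoImplicit false

namespace Pool.Agent.Work.MP_bf01b2_co.Lg

/-- The bound for the load. -/
def MM (s B : ℕ) : ℕ := 18 * (5 * s * B) * B ^ 2 * 2 ^ (5 * s)

/-- The weight of an unprocessed piece. -/
noncomputable def th (s B : ℕ) : ℝ := (1 + 1 / (B : ℝ)) / 2 ^ (5 * s)

/-- Item SP: the positions inside a piece are distinct. -/
def SamePiece : Prop := ∀ (s q B : ℕ), 0 < s → 0 < B → 16 ≤ q →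
  ∀ (ω : List Bool → Opt s q) (k : ℕ) (u v : List Bool),
    k * (5 * s) ≤ u.length → u.length ≤ (k + 1) * (5 * s) →
    k * (5 * s) ≤ v.length → v.length ≤ (k + 1) * (5 * s) →
    u.take (k * (5 * s)) = v.take (k * (5 * s)) → u ≠ v → ∃ c, P B ω u c ≠ P B ω v c

/-- Item EX: a vertex at the end of the piece differs from all others of the piece in the PSI
group of the slab. -/
def ExitPsi : Prop := ∀ (s q B : ℕ), 0 < s → 0 < B → 16 ≤ q →
  ∀ (ω : List Bool → Opt s q) (k : ℕ) (u v : List Bool),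
    u.length = (k + 1) * (5 * s) →
    k * (5 * s) ≤ v.length → v.length ≤ (k + 1) * (5 * s) →
    u.take (k * (5 * s)) = v.take (k * (5 * s)) → u ≠ v →
      ∃ l a : ℕ, P B ω u (Co.psi (k % 2) l a) ≠ P B ω v (Co.psi (k % 2) l a)

/-- Item ST: a good option preserves the invariants. -/
def StepInv : Prop := ∀ (s q B : ℕ), 0 < s → 2 ≤ B → 16 ≤ q →
  ∀ (T D : Finset (List Bool)) (ω : List Bool → Opt s q) (w : List Bool) (k : ℕ),
    PrefClosed T → w ∈ T → w.length = k * (5 * s) → w ∉ D → Placed s D w →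
    (∀ w' ∈ D, w'.length ≤ k * (5 * s)) → Inv1 B T D ω → Inv2 B T D ω →
    ∀ o : Opt s q, ¬ Conf B T D ω k w o →
      Inv1 B T (insert w D) (Function.update ω w o) ∧
        Inv2 B T (insert w D) (Function.update ω w o)

/-- Item FI: the first invariant gives injectivity when everything is placed. -/
def FinalInj : Prop := ∀ (s q B : ℕ), 0 < s → 2 ≤ B → 16 ≤ q →
  ∀ (T D : Finset (List Bool)) (ω : List Bool → Opt s q), PrefClosed T →
    (∀ v ∈ T, Placed s D v) → Inv1 B T D ω →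
      ∀ u ∈ T, ∀ v ∈ T, (∀ c ∈ allCo s q B, P B ω u c = P B ω v c) → u = v

/-- Item HC: few options hit `v` in `s` PSI blocks. -/
def HitCount : Prop := ∀ (s q B : ℕ), 0 < s → 16 ≤ q →
  ∀ (ω : List Bool → Opt s q) (k : ℕ) (w v u : List Bool) (l0 : ℕ), l0 + s ≤ 2 * s →
    ∀ S : Finset (Opt s q), (∀ o ∈ S, Hit B ω k w v u l0 o) →
      S.card * q ^ s ≤ Fintype.card (Opt s q)

/-- Item VC: few old vertices agree with `w` in the windows other than those of `k`, `k + 1`. -/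
def OldCount : Prop := ∀ (s q B M : ℕ), 0 < s → 2 ≤ B → 0 < q →
  ∀ (T D : Finset (List Bool)) (ω : List Bool → Opt s q) (w : List Bool) (k : ℕ),
    PrefClosed T → Load B M T D ω →
    ∀ F ⊆ T, (∀ v ∈ F, Placed s D v ∧ Fib B ω k w v) → F.card ≤ 2 ^ (20 * s) * (B * M)

/-- Item CC: few options are in conflict. -/
def ConfCount : Prop := ∀ (s q B M : ℕ), 0 < s → 2 ≤ B → 16 ≤ q →
  ∀ (T D : Finset (List Bool)) (ω : List Bool → Opt s q) (w : List Bool) (k : ℕ),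
    PrefClosed T → Load B M T D ω →
    ∀ S : Finset (Opt s q), (∀ o ∈ S, Conf B T D ω k w o) →
      S.card * q ^ s ≤ 2 ^ (25 * s + 2) * (B * M) * Fintype.card (Opt s q)

/-- Item MC: the new content of the window is uniform. -/
def MatchCount : Prop := ∀ (s q B : ℕ), 0 < s → 0 < B → 0 < q →
  ∀ (ω : List Bool → Opt s q) (k : ℕ) (x : Finset (ℕ × ℕ)) (v : List Bool),
    (k + 1) * (5 * s) ≤ v.length →
    ∀ S : Finset (Opt s q),
      (∀ o ∈ S, Mt B (Function.update ω (v.take (k * (5 * s))) o) x v k) →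
        S.card ≤ (5 * s).factorial * q ^ (2 * s)

/-- Item OC: the number of options. -/
def OptCard : Prop := ∀ (s q B : ℕ), 0 < s → 0 < B → 4 * B * 3125 ^ s ≤ 3456 ^ s →
  (4 * B - 1) * 2 ^ (5 * s) * ((5 * s).factorial * q ^ (2 * s)) ≤ 4 * B * Fintype.card (Opt s q)

/-- Item PS: some good option does not increase the potential. -/
def PhiStep : Prop := ∀ (s q B r : ℕ), 0 < s → 2 ≤ B → 0 < q → ∀ θ : ℝ, 0 ≤ θ →
  ∀ (T D : Finset (List Bool)) (ω : List Bool → Opt s q) (w : List Bool) (k : ℕ),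
    w.length = k * (5 * s) → w ∉ D → (∀ w' ∈ D, w'.length ≤ k * (5 * s)) →
    ∀ G : Finset (Opt s q), G.Nonempty →
      (((5 * s).factorial * q ^ (2 * s) : ℕ) : ℝ) ≤ θ * G.card →
        ∃ o ∈ G, Phi B r θ T (insert w D) (Function.update ω w o) ≤ Phi B r θ T D ω

/-- Item PL: the potential bounds the load. -/
def PhiLoad : Prop := ∀ (s q B r M : ℕ), 0 < s → 0 < B → ∀ θ : ℝ, 0 ≤ θ →
  ∀ (T D : Finset (List Bool)) (ω : List Bool → Opt s q),
    Phi B r θ T D ω < ((M : ℝ) + 1) ^ r → Load B M T D ω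

/-- Item PA: the weight of the possibilities for a new vertex of the tuple. -/
def AddOne : Prop := ∀ (s B n : ℕ), 0 < s → 0 < B → n ≤ 5 * s * B →
  ∀ T : Finset (List Bool), T.card ≤ 2 ^ n → ∀ A : Finset (List Bool),
    ∑ v ∈ Bd s T, th s B ^ (U s B v \ A).card ≤
      3 * B + 3 + A.card * (3 * B * 2 ^ (5 * s) : ℝ)

/-- Item PI: the initial value of the potential. -/
def PhiInit : Prop := ∀ (s q B n : ℕ), 0 < s → 0 < B → n ≤ 5 * s * B →
  ∀ (T : Finset (List Bool)) (ω : List Bool → Opt s q), T.card ≤ 2 ^ n →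
    Phi B (5 * s * B) (th s B) T ∅ ω ≤ (MM s B : ℝ) ^ (5 * s * B)

/-- Item NU: choice of the parameters. -/
def Params : Prop := ∃ C : ℝ, ∀ n : ℕ, 2 ≤ n → ∃ s B q : ℕ, 0 < s ∧ 2 ≤ B ∧ 16 ≤ q ∧
  n ≤ 5 * s * B ∧ 4 * B * 3125 ^ s ≤ 3456 ^ s ∧
  4 * B * (2 ^ (25 * s + 2) * (B * MM s B)) ≤ q ^ s ∧
  ((5 * s * B + 6 * s + 4 * s * q : ℕ) : ℝ) ≤ n + C * Real.log n

/-- Item MA: the combinatorial core. -/
def Core : Prop := ∀ s B q n : ℕ, 0 < s → 2 ≤ B → 16 ≤ q → n ≤ 5 * s * B →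
  4 * B * 3125 ^ s ≤ 3456 ^ s → 4 * B * (2 ^ (25 * s + 2) * (B * MM s B)) ≤ q ^ s →
  ∀ T : Finset (List Bool), PrefClosed T → T.card ≤ 2 ^ n →
    ∃ ω : List Bool → Opt s q, ∀ u ∈ T, ∀ v ∈ T,
      (∀ c ∈ allCo s q B, P B ω u c = P B ω v c) → u = v

/-- The final statement. -/
def FinalStatement : Prop := ∃ C : ℝ, ∀ n : ℕ, 2 ≤ n →
  ∀ (V : Type) [Fintype V] [DecidableEq V] (G : SimpleGraph V) [DecidableRel G.Adj],
    G.IsTree → (∀ v : V, G.degree v ≤ 3) → Fintype.card V ≤ 2 ^ n →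
      ∀ m : ℕ, (n : ℝ) + C * Real.log n ≤ m →
        ∃ f : G →g SimpleGraph.fromRel (fun x y : Fin m → Bool => hammingDist x y = 1),
          Function.Injective f

end Pool.Agent.Work.MP_bf01b2_co.Lg
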