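import Pool.Agent.Work.MP_bf01b2_co.Lg.Stmts

/-!
# MP_bf01b2_co, item VC: few old vertices agree with `w`
-/

set_option autoImplicit false

namespace Pool.Agent.Work.MP_bf01b2_co.Lg

/-- Lists of length less than `n`. -/
def shortL : ℕ → Finset (List Bool)
  | 0 => ∅
  | n + 1 => insert [] ((shortL n).image (List.cons true) ∪ (shortL n).image (List.cons false))

lemma shortL_card (n : ℕ) : (shortL n).card + 1 ≤ 2 ^ n := by
  induction n with
  | zero => simp [shortL]
  | succ n ih =>
    have h1 : (shortL (n + 1)).card ≤ (shortL n).card + (shortL n).card + 1 := by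
      rw [show shortL (n + 1) = insert [] ((shortL n).image (List.cons true) ∪
        (shortL n).image (List.cons false)) from rfl]
      refine (Finset.card_insert_le _ _).trans ?_
      refine Nat.add_le_add_right ?_ 1
      refine (Finset.card_union_le _ _).trans ?_
      exact Nat.add_le_add Finset.card_image_le Finset.card_image_le
    rw [pow_succ]
    omega

lemma mem_shortL (n : ℕ) : ∀ l : List Bool, l.length < n → l ∈ shortL n := by
  induction n with
  | zero => intro l h; omega
  | succ n ih =>
    intro l h
    unfold shortL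
    cases l with
    | nil => exact Finset.mem_insert_self _ _
    | cons a l =>
      apply Finset.mem_insert_of_mem
      have hl : l ∈ shortL n := ih l (by simpa using h)
      rw [Finset.mem_union, Finset.mem_image, Finset.mem_image]
      cases a
      · exact Or.inr ⟨l, hl, rfl⟩
      · exact Or.inl ⟨l, hl, rfl⟩

/-- Item VC. -/
theorem oldCount : OldCount := by
  classical
  intro s q B M hs hB hq T D ω w k hT hL F hF hFP
  have hH0 : 0 < 5 * s := by omega
  have hB0 : 0 < B := by omega
  set z : List Bool → List Bool := fun v => v.take (v.length / (5 * s) * (5 * s)) with hzdef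
  have hle : ∀ v : List Bool, v.length / (5 * s) * (5 * s) ≤ v.length :=
    fun v => Nat.div_mul_le_self _ _
  have hlt : ∀ v : List Bool, v.length < (v.length / (5 * s) + 1) * (5 * s) := by
    intro v
    have := Nat.div_add_mod' v.length (5 * s)
    have h2 := Nat.mod_lt v.length hH0
    rw [add_mul, one_mul]
    omega
  have hzlen : ∀ v : List Bool, (z v).length = v.length / (5 * s) * (5 * s) := by
    intro v
    rw [hzdef]
    dsimp only
    rw [List.length_take, min_eq_left (hle v)]
  have hzj : ∀ v : List Bool, (z v).length / (5 * s) = v.length / (5 * s) := by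
    intro v
    rw [hzlen, Nat.mul_div_cancel _ hH0]
  -- windows
  let Wn : ℕ → Finset (ℕ × ℕ) := fun β =>
    ({k % B, (k + 1) % B, β} : Finset ℕ) ×ˢ Finset.range (5 * s)
  let key : List Bool → (_ : ℕ) × Finset (ℕ × ℕ) := fun y =>
    ⟨(y.length / (5 * s)) % B,
      (Wn ((y.length / (5 * s)) % B)).filter (fun p => P B ω y (Co.real p.1 p.2) = 1)⟩
  set F0 := F.image z with hF0
  have hzP : ∀ y ∈ F0, y ∈ Bd s T ∧ Placed s D y ∧
      ∀ b i, b ≠ k % B → b ≠ (k + 1) % B → b ≠ (y.length / (5 * s)) % B →
        P B ω y (Co.real b i) = P B ω w (Co.real b i) := by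
    intro y hy
    obtain ⟨v, hv, rfl⟩ := Finset.mem_image.1 hy
    obtain ⟨hpl, hfib⟩ := hFP v hv
    refine ⟨?_, placed_take hs D v _ hpl, ?_⟩
    · unfold Bd
      rw [Finset.mem_filter]
      exact ⟨hT v (hF hv) _, by rw [hzlen]; exact Nat.mul_mod_left _ _⟩
    · intro b i h1 h2 h3
      rw [hzj] at h3
      rw [← hfib b i h1 h2]
      exact (P_out hs ω v (v.length / (5 * s)) (Co.real b i) (hle v) (hlt v).le h3).symm
  -- the fibres of the key
  have hfibre : ∀ κ ∈ F0.image key, (F0.filter (fun y => key y = κ)).card ≤ M := by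
    intro κ _
    apply hL (F0.filter (fun y => key y = κ)) ?_
      (fun b j => if b = k % B ∨ b = (k + 1) % B ∨ b = κ.1 then (if (b, j) ∈ κ.2 then 1 else 0)
        else P B ω w (Co.real b j)) ?_
    · intro y hy
      exact (hzP y (Finset.mem_filter.1 hy).1).1
    · intro y hy
      obtain ⟨hy1, hy2⟩ := Finset.mem_filter.1 hy
      obtain ⟨h1, h2, h3⟩ := hzP y hy1
      refine ⟨h2, ?_⟩
      intro b _ j hj
      have hκ1 : κ.1 = (y.length / (5 * s)) % B := by rw [← hy2]
      have hκ2 : κ.2 = (Wn ((y.length / (5 * s)) % B)).filter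
          (fun p => P B ω y (Co.real p.1 p.2) = 1) := by rw [← hy2]
      by_cases hb : b = k % B ∨ b = (k + 1) % B ∨ b = κ.1
      · rw [if_pos hb]
        have hmem : (b, j) ∈ Wn ((y.length / (5 * s)) % B) := by
          rw [hκ1] at hb
          simp only [Wn, Finset.mem_product, Finset.mem_insert, Finset.mem_singleton,
            Finset.mem_range]
          exact ⟨hb, hj⟩
        by_cases h5 : P B ω y (Co.real b j) = 1
        · rw [if_pos, h5]
          rw [hκ2, Finset.mem_filter]
          exact ⟨hmem, h5⟩
        · rw [if_neg]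
          · have : ∀ a : ZMod 2, a ≠ 1 → a = 0 := by decide
            exact this _ h5
          · rw [hκ2, Finset.mem_filter]
            exact fun h => h5 h.2
      · rw [if_neg hb]
        push Not at hb
        exact h3 b j hb.1 hb.2.1 (by rw [← hκ1]; exact hb.2.2)
  have hcard1 := Finset.card_le_mul_card_image F0 M hfibre
  have hkeys : (F0.image key).card ≤ B * 2 ^ (15 * s) := by
    have hsub : F0.image key ⊆ (Finset.range B).sigma (fun β => (Wn β).powerset) := by
      intro κ hκ
      obtain ⟨y, _, rfl⟩ := Finset.mem_image.1 hκ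
      rw [Finset.mem_sigma]
      exact ⟨Finset.mem_range.2 (Nat.mod_lt _ hB0),
        Finset.mem_powerset.2 (Finset.filter_subset _ _)⟩
    refine (Finset.card_le_card hsub).trans ?_
    rw [Finset.card_sigma]
    have h1 : ∀ β ∈ Finset.range B, ((Wn β).powerset).card ≤ 2 ^ (15 * s) := by
      intro β _
      rw [Finset.card_powerset]
      apply Nat.pow_le_pow_right (by norm_num)
      have h3 : ({k % B, (k + 1) % B, β} : Finset ℕ).card ≤ 3 := Finset.card_le_three
      calc (Wn β).card = ({k % B, (k + 1) % B, β} : Finset ℕ).card * (5 * s) := by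
            rw [Finset.card_product, Finset.card_range]
        _ ≤ 3 * (5 * s) := Nat.mul_le_mul_right _ h3
        _ = 15 * s := by ring
    refine (Finset.sum_le_sum h1).trans ?_
    rw [Finset.sum_const, Finset.card_range, smul_eq_mul]
  -- the rests
  have hF1 : F.card ≤ (F0 ×ˢ shortL (5 * s)).card := by
    apply Finset.card_le_card_of_injOn (fun v => (z v, v.drop (v.length / (5 * s) * (5 * s))))
    · intro v hv
      rw [Finset.mem_coe, Finset.mem_product]
      refine ⟨Finset.mem_image_of_mem z hv, mem_shortL _ _ ?_⟩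
      dsimp only
      rw [List.length_drop]
      have h1 := hlt v
      have h2 := hle v
      rw [add_mul, one_mul] at h1
      omega
    · intro v _ v' _ h
      rw [Prod.mk.injEq] at h
      rw [← List.take_append_drop (v.length / (5 * s) * (5 * s)) v,
        ← List.take_append_drop (v'.length / (5 * s) * (5 * s)) v']
      exact congrArg₂ (· ++ ·) h.1 h.2
  have hshort := shortL_card (5 * s)
  rw [Finset.card_product] at hF1
  calc F.card ≤ F0.card * (shortL (5 * s)).card := hF1
    _ ≤ (M * (B * 2 ^ (15 * s))) * 2 ^ (5 * s) :=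
        Nat.mul_le_mul (hcard1.trans (Nat.mul_le_mul_left _ hkeys)) (by omega)
    _ = 2 ^ (20 * s) * (B * M) := by
        rw [show 20 * s = 15 * s + 5 * s by ring, pow_add]
        ring

end Pool.Agent.Work.MP_bf01b2_co.Lg
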